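import Pool.Agent.PN.Theta

set_option autoImplicit false

open MeasureTheory Filter Topology Set
open Pool.Agent.H51.Neumann
open scoped RealInnerProductSpace ContDiff ComplexConjugate ENNReal

namespace Pool.Agent.PN

/-- An admissible radial weight: bounded, nonnegative, supported in the ball of radius `R`. -/
structure Wt (w : ℝ → ℝ) (R C : ℝ) : Prop where
  meas : Measurable w
  nn : ∀ q, 0 ≤ w q
  le : ∀ q, w q ≤ C
  supp : ∀ q, R ^ 2 ≤ q → w q = 0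

variable {n : ℕ} {w : ℝ → ℝ} {R C : ℝ}

theorem Wt.comp_meas (hw : Wt w R C) : Measurable (fun ξ : E n => w (‖ξ‖ ^ 2)) :=
  hw.meas.comp (Continuous.measurable (by fun_prop))

theorem Wt.comp_meas' (hw : Wt w R C) :
    Measurable (fun ξ : E n => ENNReal.ofReal (w (‖ξ‖ ^ 2))) :=
  ENNReal.measurable_ofReal.comp hw.comp_meas

theorem Wt.supp' (hw : Wt w R C) (hR : 0 < R) (ξ : E n) (h : w (‖ξ‖ ^ 2) ≠ 0) : ‖ξ‖ < R := by
  by_contra h1
  push Not at h1
  exact h (hw.supp _ (by gcongr))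

/-- integrability of (weight) × (continuous) -/
theorem Wt.integrable_mul (hw : Wt w R C) (hR : 0 < R) {f : E n → ℝ} (hf : Continuous f) :
    Integrable (fun ξ : E n => w (‖ξ‖ ^ 2) * f ξ) := by
  have h1 : IntegrableOn f (Metric.closedBall (0 : E n) R) :=
    hf.continuousOn.integrableOn_compact (isCompact_closedBall _ _)
  have h2 : IntegrableOn (fun ξ : E n => w (‖ξ‖ ^ 2) * f ξ) (Metric.closedBall (0 : E n) R) := by
    have := Integrable.bdd_mul (c := C) h1 (f := fun ξ : E n => w (‖ξ‖ ^ 2))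
      hw.comp_meas.aestronglyMeasurable
      (Eventually.of_forall fun ξ => by
        rw [Real.norm_eq_abs, abs_of_nonneg (hw.nn _)]; exact hw.le _)
    exact this
  refine h2.integrable_of_forall_notMem_eq_zero fun ξ hξ => ?_
  have : w (‖ξ‖ ^ 2) = 0 := by
    by_contra h
    exact hξ (by rw [mem_closedBall_zero_iff]; exact (hw.supp' hR ξ h).le)
  rw [this, zero_mul]

theorem Wt.integrable (hw : Wt w R C) (hR : 0 < R) :
    Integrable (fun ξ : E n => w (‖ξ‖ ^ 2)) := by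
  have := hw.integrable_mul (n := n) hR (f := fun _ => 1) continuous_const
  simpa using this

theorem Wt.finite (hw : Wt w R C) (hR : 0 < R) : IsFiniteMeasure (wm n w) :=
  isFiniteMeasure_withDensity_ofReal (hw.integrable hR).2

theorem Wt.ae_le (hw : Wt w R C) (hR : 0 < R) : ∀ᵐ ξ ∂(wm n w), ‖ξ‖ ≤ R := by
  unfold wm
  rw [ae_withDensity_iff hw.comp_meas']
  refine Eventually.of_forall fun ξ h => ?_
  refine (hw.supp' hR ξ fun h0 => h ?_).le
  rw [h0, ENNReal.ofReal_zero]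

theorem Wt.integral (hw : Wt w R C) (f : E n → ℝ) :
    ∫ ξ, f ξ ∂(wm n w) = ∫ ξ, w (‖ξ‖ ^ 2) * f ξ := by
  unfold wm
  rw [integral_withDensity_eq_integral_toReal_smul
    hw.comp_meas' (Eventually.of_forall fun _ =>
      ENNReal.ofReal_lt_top)]
  refine integral_congr_ae (Eventually.of_forall fun ξ => ?_)
  simp only [smul_eq_mul]
  rw [ENNReal.toReal_ofReal (hw.nn _)]

/-- The abstract bound. -/
theorem bound {k : ℕ} {Ω : Set (E (k + 1))} (hΩ : MeasurableSet Ω) (hfin : volume Ω ≠ ⊤)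
    (hpos : 0 < volume.real Ω)
    {μ : ℕ → ℝ} {u : ℕ → E (k + 1) → ℝ} {g : ℕ → E (k + 1) → E (k + 1)} (N : NData Ω μ u g)
    {j : ℕ} (hj : 1 ≤ j) (hw : Wt w R C) (hR : 0 < R)
    {a : ℝ → ℝ} (ha : Measurable a) (ha0 : ∀ q, 0 < a q) {κ : ℝ} (hκ : 0 ≤ κ)
    (H : ∀ q b, 0 ≤ q → 0 ≤ b → ∫⁻ p : ℝ, ENNReal.ofReal (FF w (μ j) b p q)
      ≤ ENNReal.ofReal (κ * ZZ (a q) (2 * b)) * ∫⁻ p : ℝ, ENNReal.ofReal (FF w (μ j) 0 p q))
    (hS : 0 ≤ ∫ ξ : E (k + 1), w (‖ξ‖ ^ 2) * (μ j - ‖ξ‖ ^ 2)) :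
    volume.real Ω * (∫ ξ : E (k + 1), w (‖ξ‖ ^ 2) * (μ j - ‖ξ‖ ^ 2)) ^ 2
      ≤ j * (κ * (2 * Real.pi) ^ (k + 1) *
        ∫ ξ : E (k + 1), (w (‖ξ‖ ^ 2)) ^ 2 * (μ j - ‖ξ‖ ^ 2) ^ 2) := by
  have hfm := hw.finite (n := k + 1) hR
  have hs : ∫ ξ, (μ j - ‖ξ‖ ^ 2) ∂(wm (k + 1) w)
      = ∫ ξ : E (k + 1), w (‖ξ‖ ^ 2) * (μ j - ‖ξ‖ ^ 2) :=
    hw.integral (n := k + 1) (fun ξ => μ j - ‖ξ‖ ^ 2)
  have hr := rank_ineq hΩ hfin (hw.ae_le hR) N j hj (by rw [hs]; positivity)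
  rw [hs] at hr
  have hh := hs_lintegral hΩ hfin hw.meas hw.nn (μ j) ha ha0 hκ H
  -- the right hand side as a real integral
  have i2 : Integrable (fun ξ : E (k + 1) => (w (‖ξ‖ ^ 2)) ^ 2 * (μ j - ‖ξ‖ ^ 2) ^ 2) := by
    have h1 := hw.integrable_mul (n := k + 1) hR (f := fun ξ => (μ j - ‖ξ‖ ^ 2) ^ 2)
      (by fun_prop)
    have h2 := Integrable.bdd_mul (c := C) h1 (f := fun ξ : E (k + 1) => w (‖ξ‖ ^ 2))
      hw.comp_meas.aestronglyMeasurable
      (Eventually.of_forall fun ξ => by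
        rw [Real.norm_eq_abs, abs_of_nonneg (hw.nn _)]; exact hw.le _)
    refine h2.congr (Eventually.of_forall fun ξ => ?_)
    simp only; ring
  rw [← ofReal_integral_eq_lintegral_ofReal i2 (Eventually.of_forall fun ξ => by
    simp only [Pi.zero_apply]; positivity), ← ENNReal.ofReal_mul (by positivity)] at hh
  have h0 : 0 ≤ ∫ ξ : E (k + 1), (w (‖ξ‖ ^ 2)) ^ 2 * (μ j - ‖ξ‖ ^ 2) ^ 2 :=
    integral_nonneg fun ξ => by positivity
  have hle := ENNReal.toReal_le_of_le_ofReal (by positivity) hh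
  rw [← integral_eq_lintegral_of_nonneg_ae (Eventually.of_forall fun p => by
      simp only [Pi.zero_apply]; positivity) ?_] at hle
  · have h3 := hr.trans (mul_le_mul_of_nonneg_left hle (Nat.cast_nonneg j))
    have h4 : volume.real Ω * (volume.real Ω
        * (∫ ξ : E (k + 1), w (‖ξ‖ ^ 2) * (μ j - ‖ξ‖ ^ 2)) ^ 2)
        ≤ volume.real Ω * (j * (κ * (2 * Real.pi) ^ (k + 1) *
        ∫ ξ : E (k + 1), (w (‖ξ‖ ^ 2)) ^ 2 * (μ j - ‖ξ‖ ^ 2) ^ 2)) := by
      refine le_trans (le_of_eq ?_) (h3.trans (le_of_eq ?_))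
      · ring
      · ring
    exact le_of_mul_le_mul_left h4 hpos
  · refine Continuous.aestronglyMeasurable (Continuous.mul (by fun_prop) ?_)
    exact (((chi_continuous hfin).comp (continuous_snd.sub continuous_fst)).norm).pow 2

end Pool.Agent.PN
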