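import Pool.Agent.H51.Neumann.Basic

set_option autoImplicit false

open MeasureTheory Filter Topology Set
open Pool.Agent.H51.Neumann
open scoped RealInnerProductSpace ContDiff

namespace Pool.Agent.PN

variable {n : ℕ}

/-- complex valued `H¹(Ω)` functions with partial derivatives `D l` -/
structure CH1 (Ω : Set (E n)) (f : E n → ℂ) (D : Fin n → E n → ℂ) : Prop where
  memLp : MemLp f 2 (volume.restrict Ω)
  memLp_grad : ∀ l, MemLp (D l) 2 (volume.restrict Ω)
  weak : ∀ φ : E n → ℝ, ContDiff ℝ ∞ φ → HasCompactSupport φ → tsupport φ ⊆ Ω → ∀ v : E n,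
    ∫ x in Ω, f x * (fderiv ℝ φ x v : ℂ) = - ∫ x in Ω, (∑ l, (v l : ℂ) * D l x) * (φ x : ℂ)

/-- facts on test functions -/
theorem test_bdd (φ : E n → ℝ) (hφ : ContDiff ℝ ∞ φ) (hcs : HasCompactSupport φ) (v : E n) :
    ∃ C, ∀ x, ‖φ x‖ ≤ C ∧ ‖fderiv ℝ φ x v‖ ≤ C := by
  obtain ⟨C1, h1⟩ := hφ.continuous.bounded_above_of_compact_support hcs
  have hd : Continuous fun x => fderiv ℝ φ x v :=
    (hφ.continuous_fderiv (by simp)).clm_apply continuous_const
  have hcd : HasCompactSupport fun x => fderiv ℝ φ x v := by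
    have h1 := hcs.fderiv ℝ
    exact h1.comp_left (g := fun L : E n →L[ℝ] ℝ => L v) (by simp)
  obtain ⟨C2, h2⟩ := hd.bounded_above_of_compact_support hcd
  exact ⟨max C1 C2, fun x => ⟨(h1 x).trans (le_max_left _ _), (h2 x).trans (le_max_right _ _)⟩⟩

theorem test_cont (φ : E n → ℝ) (hφ : ContDiff ℝ ∞ φ) (v : E n) :
    Continuous fun x => fderiv ℝ φ x v :=
  (hφ.continuous_fderiv (by simp)).clm_apply continuous_const

section

variable {Ω : Set (E n)}

theorem int_mul_test [IsFiniteMeasure (volume.restrict Ω)] {f : E n → ℂ}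
    (hf : MemLp f 2 (volume.restrict Ω)) (φ : E n → ℝ) (hφ : ContDiff ℝ ∞ φ)
    (hcs : HasCompactSupport φ) (v : E n) :
    Integrable (fun x => f x * (fderiv ℝ φ x v : ℂ)) (volume.restrict Ω) ∧
    Integrable (fun x => f x * (φ x : ℂ)) (volume.restrict Ω) := by
  obtain ⟨C, hC⟩ := test_bdd φ hφ hcs v
  have hi : Integrable f (volume.restrict Ω) := hf.integrable (by norm_num)
  refine ⟨?_, ?_⟩
  · refine hi.mul_bdd (c := C) ?_ (Eventually.of_forall fun x => ?_)
    · exact (Complex.continuous_ofReal.comp (test_cont φ hφ v)).aestronglyMeasurable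
    · rw [Complex.norm_real]; exact (hC x).2
  · refine hi.mul_bdd (c := C) ?_ (Eventually.of_forall fun x => ?_)
    · exact (Complex.continuous_ofReal.comp hφ.continuous).aestronglyMeasurable
    · rw [Complex.norm_real]; exact (hC x).1

theorem CH1.add [IsFiniteMeasure (volume.restrict Ω)] {f₁ f₂ : E n → ℂ} {D₁ D₂ : Fin n → E n → ℂ}
    (h₁ : CH1 Ω f₁ D₁) (h₂ : CH1 Ω f₂ D₂) :
    CH1 Ω (fun x => f₁ x + f₂ x) (fun l x => D₁ l x + D₂ l x) := by
  refine ⟨h₁.memLp.add h₂.memLp, fun l => (h₁.memLp_grad l).add (h₂.memLp_grad l), ?_⟩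
  intro φ hφ hcs hsub v
  have e1 := h₁.weak φ hφ hcs hsub v
  have e2 := h₂.weak φ hφ hcs hsub v
  have i1 := (int_mul_test h₁.memLp φ hφ hcs v).1
  have i2 := (int_mul_test h₂.memLp φ hφ hcs v).1
  have hs : ∀ (D : Fin n → E n → ℂ), (∀ l, MemLp (D l) 2 (volume.restrict Ω)) →
      MemLp (fun x => ∑ l, (v l : ℂ) * D l x) 2 (volume.restrict Ω) := fun D hD =>
    memLp_finsetSum _ fun l _ => (hD l).const_mul _
  have j1 := (int_mul_test (hs D₁ h₁.memLp_grad) φ hφ hcs v).2
  have j2 := (int_mul_test (hs D₂ h₂.memLp_grad) φ hφ hcs v).2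
  simp only [add_mul, mul_add, Finset.sum_add_distrib]
  rw [integral_add i1 i2, integral_add j1 j2, e1, e2]; ring

theorem CH1.smul {f : E n → ℂ} {D : Fin n → E n → ℂ}
    (h : CH1 Ω f D) (c : ℂ) : CH1 Ω (fun x => c * f x) (fun l x => c * D l x) := by
  refine ⟨h.memLp.const_mul c, fun l => (h.memLp_grad l).const_mul c, ?_⟩
  intro φ hφ hcs hsub v
  have e1 := h.weak φ hφ hcs hsub v
  have : ∀ x, (∑ l, (v l : ℂ) * (c * D l x)) * (φ x : ℂ)
      = c * ((∑ l, (v l : ℂ) * D l x) * (φ x : ℂ)) := by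
    intro x
    rw [← mul_assoc, Finset.mul_sum]
    congr 1
    exact Finset.sum_congr rfl fun l _ => by ring
  simp only [this, mul_assoc]
  rw [integral_const_mul, integral_const_mul, e1]; ring

theorem CH1.zero : CH1 Ω (fun _ => 0) (fun _ _ => 0) := by
  refine ⟨by simp, fun l => by simp, ?_⟩
  intro φ hφ hcs hsub v
  simp

theorem CH1.sum [IsFiniteMeasure (volume.restrict Ω)] {ι : Type*} (s : Finset ι)
    {f : ι → E n → ℂ} {D : ι → Fin n → E n → ℂ}
    (h : ∀ i ∈ s, CH1 Ω (f i) (D i)) :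
    CH1 Ω (fun x => ∑ i ∈ s, f i x) (fun l x => ∑ i ∈ s, D i l x) := by
  classical
  induction s using Finset.induction_on with
  | empty => simpa using CH1.zero
  | insert a s ha ih =>
    simp only [Finset.sum_insert ha]
    exact (h a (Finset.mem_insert_self a s)).add
      (ih fun i hi => h i (Finset.mem_insert_of_mem hi))

theorem CH1.weak_re [IsFiniteMeasure (volume.restrict Ω)] {f : E n → ℂ} {D : Fin n → E n → ℂ}
    (h : CH1 Ω f D) (φ : E n → ℝ) (hφ : ContDiff ℝ ∞ φ) (hcs : HasCompactSupport φ)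
    (hsub : tsupport φ ⊆ Ω) (v : E n) (L : ℂ →L[ℝ] ℝ) :
    ∫ x in Ω, L (f x) * fderiv ℝ φ x v
      = - ∫ x in Ω, (∑ l, v l * L (D l x)) * φ x := by
  have hs : MemLp (fun x => ∑ l, (v l : ℂ) * D l x) 2 (volume.restrict Ω) :=
    memLp_finsetSum _ fun l _ => (h.memLp_grad l).const_mul _
  have i1 := (int_mul_test h.memLp φ hφ hcs v).1
  have i2 := (int_mul_test hs φ hφ hcs v).2
  have e := congrArg L (h.weak φ hφ hcs hsub v)
  have hr : ∀ (z : ℂ) (r : ℝ), L (z * (r : ℂ)) = L z * r := by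
    intro z r
    have : z * (r : ℂ) = r • z := by rw [Complex.real_smul, mul_comm]
    rw [this, L.map_smul, smul_eq_mul, mul_comm]
  have hr' : ∀ (r : ℝ) (z : ℂ), L ((r : ℂ) * z) = r * L z := by
    intro r z
    rw [mul_comm, hr, mul_comm]
  rw [L.map_neg, ← L.integral_comp_comm i1, ← L.integral_comp_comm i2] at e
  simp only [hr, map_sum, hr'] at e
  exact e

/-- real part -/
theorem CH1.re [IsFiniteMeasure (volume.restrict Ω)] {f : E n → ℂ} {D : Fin n → E n → ℂ}
    (h : CH1 Ω f D) :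
    IsH1 Ω (fun x => (f x).re) (fun x => WithLp.toLp 2 fun l => (D l x).re) := by
  refine ⟨h.memLp.re, MemLp.of_eval_piLp fun l => (h.memLp_grad l).re, ?_⟩
  intro φ hφ hcs hsub v
  have e := h.weak_re φ hφ hcs hsub v Complex.reCLM
  simp only [Complex.reCLM_apply] at e
  rw [e]
  congr 1

/-- imaginary part -/
theorem CH1.im [IsFiniteMeasure (volume.restrict Ω)] {f : E n → ℂ} {D : Fin n → E n → ℂ}
    (h : CH1 Ω f D) :
    IsH1 Ω (fun x => (f x).im) (fun x => WithLp.toLp 2 fun l => (D l x).im) := by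
  refine ⟨h.memLp.im, MemLp.of_eval_piLp fun l => (h.memLp_grad l).im, ?_⟩
  intro φ hφ hcs hsub v
  have e := h.weak_re φ hφ hcs hsub v Complex.imCLM
  simp only [Complex.imCLM_apply] at e
  rw [e]
  congr 1

end

/-- The Neumann data used throughout. -/
structure NData (Ω : Set (E n)) (μ : ℕ → ℝ) (u : ℕ → E n → ℝ) (g : ℕ → E n → E n) : Prop where
  mono : Monotone μ
  h1 : ∀ i, IsH1 Ω (u i) (g i)
  on : ∀ i k, ∫ x in Ω, u i x * u k x = if i = k then 1 else 0
  comp : ∀ f : E n → ℝ, MemLp f 2 (volume.restrict Ω) → (∀ i, ∫ x in Ω, f x * u i x = 0) →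
      f =ᵐ[volume.restrict Ω] 0
  eig : ∀ i v h, IsH1 Ω v h → ∫ x in Ω, ⟪g i x, h x⟫ = μ i * ∫ x in Ω, u i x * v x

/-- energy inequality for complex functions orthogonal to the first `j` eigenfunctions -/
theorem NData.energyC {Ω : Set (E n)} [IsFiniteMeasure (volume.restrict Ω)]
    {μ : ℕ → ℝ} {u : ℕ → E n → ℝ} {g : ℕ → E n → E n}
    (N : NData Ω μ u g) {f : E n → ℂ} {D : Fin n → E n → ℂ} (h : CH1 Ω f D) (j : ℕ)
    (ho : ∀ i < j, ∫ x in Ω, (u i x : ℂ) * f x = 0) :
    μ j * ∫ x in Ω, ‖f x‖ ^ 2 ≤ ∫ x in Ω, ∑ l, ‖D l x‖ ^ 2 := by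
  have iuf : ∀ i, Integrable (fun x => (u i x : ℂ) * f x) (volume.restrict Ω) := by
    intro i
    have h1 : MemLp (fun x => (u i x : ℂ)) 2 (volume.restrict Ω) := (N.h1 i).memLp.ofReal
    exact h1.integrable_mul h.memLp
  have r1 : ∀ i < j, ∫ x in Ω, u i x * (f x).re = 0 := by
    intro i hi
    have := congrArg Complex.reCLM (ho i hi)
    rw [← Complex.reCLM.integral_comp_comm (iuf i)] at this
    simpa using this
  have r2 : ∀ i < j, ∫ x in Ω, u i x * (f x).im = 0 := by
    intro i hi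
    have := congrArg Complex.imCLM (ho i hi)
    rw [← Complex.imCLM.integral_comp_comm (iuf i)] at this
    simpa using this
  have e1 := energy u g N.mono N.h1 N.on N.comp N.eig _ _ h.re j
  have e2 := energy u g N.mono N.h1 N.on N.comp N.eig _ _ h.im j
  rw [Finset.sum_eq_zero (fun i hi => by rw [r1 i (Finset.mem_range.1 hi)]; simp), sub_zero] at e1
  rw [Finset.sum_eq_zero (fun i hi => by rw [r2 i (Finset.mem_range.1 hi)]; simp), sub_zero] at e2
  have i1 : Integrable (fun x => (f x).re ^ 2) (volume.restrict Ω) := h.memLp.re.integrable_sq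
  have i2 : Integrable (fun x => (f x).im ^ 2) (volume.restrict Ω) := h.memLp.im.integrable_sq
  have j1 : Integrable (fun x => ‖(WithLp.toLp 2 fun l => (D l x).re : E n)‖ ^ 2)
      (volume.restrict Ω) := (memLp_two_iff_integrable_sq_norm h.re.memLp_grad.1).1 h.re.memLp_grad
  have j2 : Integrable (fun x => ‖(WithLp.toLp 2 fun l => (D l x).im : E n)‖ ^ 2)
      (volume.restrict Ω) := (memLp_two_iff_integrable_sq_norm h.im.memLp_grad.1).1 h.im.memLp_grad
  have s1 : ∫ x in Ω, ‖f x‖ ^ 2 = (∫ x in Ω, (f x).re ^ 2) + ∫ x in Ω, (f x).im ^ 2 := by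
    rw [← integral_add i1 i2]
    refine integral_congr_ae (Eventually.of_forall fun x => ?_)
    simp only [Complex.sq_norm, Complex.normSq_apply]; ring
  have s2 : ∫ x in Ω, ∑ l, ‖D l x‖ ^ 2
      = (∫ x in Ω, ‖(WithLp.toLp 2 fun l => (D l x).re : E n)‖ ^ 2)
        + ∫ x in Ω, ‖(WithLp.toLp 2 fun l => (D l x).im : E n)‖ ^ 2 := by
    rw [← integral_add j1 j2]
    refine integral_congr_ae (Eventually.of_forall fun x => ?_)
    simp only [EuclideanSpace.norm_sq_eq, Real.norm_eq_abs, sq_abs]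
    rw [← Finset.sum_add_distrib]
    refine Finset.sum_congr rfl fun l _ => ?_
    simp only [Complex.sq_norm, Complex.normSq_apply]; ring
  rw [s1, s2, mul_add]
  exact add_le_add e1 e2

/-- plane wave `e^{i⟨ξ,x⟩}` -/
noncomputable def pw (ξ x : E n) : ℂ := Complex.exp (((⟪ξ, x⟫ : ℝ) : ℂ) * Complex.I)

theorem pw_re (ξ x : E n) : (pw ξ x).re = Real.cos ⟪ξ, x⟫ := Complex.exp_ofReal_mul_I_re _

theorem pw_im (ξ x : E n) : (pw ξ x).im = Real.sin ⟪ξ, x⟫ := Complex.exp_ofReal_mul_I_im _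

theorem norm_pw (ξ x : E n) : ‖pw ξ x‖ = 1 := Complex.norm_exp_ofReal_mul_I _

theorem pw_continuous : Continuous fun p : E n × E n => pw p.1 p.2 := by
  unfold pw
  fun_prop

theorem CH1.pw {Ω : Set (E n)} (hΩ : MeasurableSet Ω) (hfin : volume Ω ≠ ⊤) (ξ : E n) :
    CH1 Ω (pw ξ) (fun l x => Complex.I * (ξ l : ℂ) * pw ξ x) := by
  have : IsFiniteMeasure (volume.restrict Ω) := ⟨by
    rw [Measure.restrict_apply_univ]; exact lt_top_iff_ne_top.2 hfin⟩
  have hc : Continuous (PN.pw ξ) := pw_continuous.comp (Continuous.prodMk continuous_const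
    continuous_id)
  have hm : MemLp (PN.pw ξ) 2 (volume.restrict Ω) :=
    MemLp.of_bound hc.aestronglyMeasurable 1 (Eventually.of_forall fun x => (norm_pw ξ x).le)
  refine ⟨hm, fun l => hm.const_mul _, ?_⟩
  intro φ hφ hcs hsub v
  have hH := int_mul_test hm φ hφ hcs v
  have e1 := (isH1_cos hΩ hfin ξ).weak φ hφ hcs hsub v
  have e2 := (isH1_sin hΩ hfin ξ).weak φ hφ hcs hsub v
  have hv : ∀ x, (∑ l, (v l : ℂ) * (Complex.I * (ξ l : ℂ) * PN.pw ξ x)) * (φ x : ℂ)
      = (((⟪ξ, v⟫ : ℝ) : ℂ) * Complex.I) * (PN.pw ξ x * (φ x : ℂ)) := by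
    intro x
    have : (((⟪ξ, v⟫ : ℝ) : ℂ)) = ∑ l, (v l : ℂ) * (ξ l : ℂ) := by
      rw [PiLp.inner_apply]; simp
    rw [this]
    simp only [Finset.sum_mul]
    refine Finset.sum_congr rfl fun l _ => ?_
    ring
  simp only [hv]
  rw [integral_const_mul]
  apply Complex.ext
  · have h1 := Complex.reCLM.integral_comp_comm hH.1
    have h2 := Complex.imCLM.integral_comp_comm hH.2
    simp only [Complex.reCLM_apply, Complex.imCLM_apply] at h1 h2
    rw [← h1]
    simp only [Complex.neg_re, Complex.mul_re, Complex.mul_im, Complex.ofReal_re,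
      Complex.ofReal_im, Complex.I_re, Complex.I_im, mul_zero, zero_mul, sub_zero, mul_one,
      zero_add, add_zero, zero_sub, ← h2, pw_re, pw_im, neg_neg]
    rw [e1]
    simp only [inner_smul_left, conj_trivial]
    rw [← integral_neg, ← integral_const_mul]
    refine integral_congr_ae (Eventually.of_forall fun x => ?_)
    simp only; ring
  · have h1 := Complex.imCLM.integral_comp_comm hH.1
    have h2 := Complex.reCLM.integral_comp_comm hH.2
    simp only [Complex.reCLM_apply, Complex.imCLM_apply] at h1 h2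
    rw [← h1]
    simp only [Complex.neg_im, Complex.mul_re, Complex.mul_im, Complex.ofReal_re,
      Complex.ofReal_im, Complex.I_re, Complex.I_im, mul_zero, zero_mul, sub_zero, mul_one,
      zero_add, add_zero, ← h2, pw_re, pw_im]
    rw [e2]
    simp only [inner_smul_left, conj_trivial]
    rw [← integral_neg, ← integral_const_mul, ← integral_neg]
    refine integral_congr_ae (Eventually.of_forall fun x => ?_)
    simp only; ring

end Pool.Agent.PN
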