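import Pool.Agent.PN.Bound

set_option autoImplicit false

open MeasureTheory Filter Topology Set
open Pool.Agent.H51.Neumann
open scoped RealInnerProductSpace ContDiff ComplexConjugate ENNReal

namespace Pool.Agent.PN

/-- the flat weight -/
noncomputable def wf (R : ℝ) : ℝ → ℝ := (Iio (R ^ 2)).indicator (fun _ => 1)

theorem wf_of_lt {R q : ℝ} (h : q < R ^ 2) : wf R q = 1 := by
  rw [wf, indicator_of_mem (show q ∈ Iio (R ^ 2) from h)]

theorem wf_of_le {R q : ℝ} (h : R ^ 2 ≤ q) : wf R q = 0 := by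
  rw [wf, indicator_of_notMem (by simpa using h)]

theorem wf_wt (R : ℝ) : Wt (wf R) R 1 where
  meas := measurable_const.indicator measurableSet_Iio
  nn q := indicator_nonneg (fun _ _ => zero_le_one) q
  le _ := indicator_le_self' (fun _ _ => zero_le_one) _
  supp q h := wf_of_le h

theorem FF_flat {R m b q : ℝ} (hb : 0 ≤ b) (hq : q < R ^ 2) (p : ℝ) :
    FF (wf R) m b p q = (Ioo (-(Real.sqrt (R ^ 2 - q) - b)) (Real.sqrt (R ^ 2 - q) - b)).indicator
      (fun p => (m - q + b ^ 2 - p ^ 2) ^ 2) p := by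
  set ρ := Real.sqrt (R ^ 2 - q) with hρ
  have hρ2 : ρ ^ 2 = R ^ 2 - q := Real.sq_sqrt (by linarith)
  have hρ0 : 0 < ρ := Real.sqrt_pos.2 (by linarith)
  by_cases hp : p ∈ Ioo (-(ρ - b)) (ρ - b)
  · rw [indicator_of_mem hp, FF]
    obtain ⟨h1, h2⟩ := hp
    rw [wf_of_lt (by nlinarith), wf_of_lt (by nlinarith)]
    ring
  · rw [indicator_of_notMem hp, FF]
    rw [mem_Ioo, not_and_or, not_lt, not_lt] at hp
    rcases hp with h | h
    · rw [wf_of_le (q := (p - b) ^ 2 + q) (by nlinarith)]; ring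
    · rw [wf_of_le (q := (p + b) ^ 2 + q) (by nlinarith)]; ring

theorem FF_zero {R m b q : ℝ} (hq : R ^ 2 ≤ q) (p : ℝ) : FF (wf R) m b p q = 0 := by
  rw [FF, wf_of_le (by nlinarith [sq_nonneg (p - b)])]; ring

theorem int_poly (A L : ℝ) : ∫ p in (-L)..L, (A - p ^ 2) ^ 2
    = 2 * A ^ 2 * L - 4 / 3 * A * L ^ 3 + 2 / 5 * L ^ 5 := by
  have h : ∀ x ∈ uIcc (-L) L, HasDerivAt (fun p : ℝ => A ^ 2 * p - 2 / 3 * A * p ^ 3
      + 1 / 5 * p ^ 5) ((A - x ^ 2) ^ 2) x := by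
    intro x _
    have h1 : HasDerivAt (fun p : ℝ => A ^ 2 * p) (A ^ 2 * 1) x :=
      (hasDerivAt_id x).const_mul _
    have h2 : HasDerivAt (fun p : ℝ => 2 / 3 * A * p ^ 3) (2 / 3 * A * (3 * x ^ 2)) x := by
      simpa using (hasDerivAt_pow 3 x).const_mul (2 / 3 * A)
    have h3 : HasDerivAt (fun p : ℝ => 1 / 5 * p ^ 5) (1 / 5 * (5 * x ^ 4)) x := by
      simpa using (hasDerivAt_pow 5 x).const_mul (1 / 5 : ℝ)
    refine ((h1.sub h2).add h3).congr_deriv ?_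
    ring
  rw [intervalIntegral.integral_eq_sub_of_hasDerivAt h
    ((Continuous.intervalIntegrable (by fun_prop) _ _))]
  ring

theorem lint_flat {A L : ℝ} (hL : 0 ≤ L) :
    ∫⁻ p : ℝ, ENNReal.ofReal ((Ioo (-L) L).indicator (fun p => (A - p ^ 2) ^ 2) p)
      = ENNReal.ofReal (2 * A ^ 2 * L - 4 / 3 * A * L ^ 3 + 2 / 5 * L ^ 5) := by
  have h1 : ∀ p : ℝ, ENNReal.ofReal ((Ioo (-L) L).indicator (fun p => (A - p ^ 2) ^ 2) p)
      = (Ioo (-L) L).indicator (fun p => ENNReal.ofReal ((A - p ^ 2) ^ 2)) p := by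
    intro p
    by_cases h : p ∈ Ioo (-L) L
    · rw [indicator_of_mem h, indicator_of_mem h]
    · rw [indicator_of_notMem h, indicator_of_notMem h, ENNReal.ofReal_zero]
  simp only [h1]
  rw [lintegral_indicator measurableSet_Ioo, ← ofReal_integral_eq_lintegral_ofReal,
    ← integral_Ioc_eq_integral_Ioo, ← intervalIntegral.integral_of_le (by linarith), int_poly]
  · exact (Continuous.integrableOn_Icc (by fun_prop)).mono_set Ioo_subset_Icc_self
  · exact Eventually.of_forall fun p => by simp only [Pi.zero_apply]; positivity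

/-- `P(β) = 1 + (5/2)β² - (5/2)β³ - β⁵` -/
noncomputable def PP (β : ℝ) : ℝ := 1 + 5 / 2 * β ^ 2 - 5 / 2 * β ^ 3 - β ^ 5

/-- the one-dimensional inequality -/
def OD (κ s τ : ℝ) : Prop := ∀ β σ : ℝ, 0 ≤ β → β ≤ 1 → τ ≤ σ →
  16 / 15 * PP β + 8 / 3 * σ * (1 - β ^ 3) + 2 * σ ^ 2 * (1 - β)
    ≤ κ * (2 * Real.exp (-s * β ^ 2) - Real.exp (-(4 * s) * β ^ 2))
      * (16 / 15 + 8 / 3 * σ + 2 * σ ^ 2)

/-- the Gaussian parameter on each slice -/
noncomputable def aa (s R q : ℝ) : ℝ := if q < R ^ 2 then s / (4 * (R ^ 2 - q)) else 1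

theorem aa_meas (s R : ℝ) : Measurable (aa s R) := by
  unfold aa
  refine Measurable.ite measurableSet_Iio ?_ measurable_const
  exact measurable_const.div (measurable_const.mul (measurable_const.sub measurable_id))

theorem aa_pos {s : ℝ} (hs : 0 < s) (R q : ℝ) : 0 < aa s R q := by
  unfold aa
  split_ifs with h
  · have : 0 < R ^ 2 - q := by linarith
    positivity
  · exact one_pos

theorem flat_H {κ s τ : ℝ} (hOD : OD κ s τ) (hs : 0 < s) (hκ : 0 ≤ κ) (hτ : 0 ≤ τ)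
    {R m : ℝ} (hm : m = (1 + τ) * R ^ 2) :
    ∀ q b, 0 ≤ q → 0 ≤ b → ∫⁻ p : ℝ, ENNReal.ofReal (FF (wf R) m b p q)
      ≤ ENNReal.ofReal (κ * ZZ (aa s R q) (2 * b))
        * ∫⁻ p : ℝ, ENNReal.ofReal (FF (wf R) m 0 p q) := by
  intro q b hq0 hb
  by_cases hq : q < R ^ 2
  swap
  · have : ∀ p, FF (wf R) m b p q = 0 := fun p => FF_zero (not_lt.1 hq) p
    simp only [this, ENNReal.ofReal_zero, lintegral_zero, zero_le]
  set ρ := Real.sqrt (R ^ 2 - q) with hρ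
  have hρ2 : ρ ^ 2 = R ^ 2 - q := Real.sq_sqrt (by linarith)
  have hρ0 : 0 < ρ := Real.sqrt_pos.2 (by linarith)
  have e1 : ∀ p, FF (wf R) m b p q = (Ioo (-(ρ - b)) (ρ - b)).indicator
      (fun p => (m - q + b ^ 2 - p ^ 2) ^ 2) p := fun p => FF_flat hb hq p
  have e2 : ∀ p, FF (wf R) m 0 p q = (Ioo (-ρ) ρ).indicator
      (fun p => (m - q - p ^ 2) ^ 2) p := by
    intro p
    have := FF_flat (m := m) (le_refl (0 : ℝ)) hq p
    rw [this]
    simp only [sub_zero, ← hρ]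
    congr 1
    funext p; ring
  simp only [e1, e2]
  by_cases hbρ : ρ ≤ b
  · have : Ioo (-(ρ - b)) (ρ - b) = ∅ := Ioo_eq_empty (by linarith)
    simp only [this, indicator_empty, ENNReal.ofReal_zero, lintegral_zero, zero_le]
  push Not at hbρ
  rw [lint_flat (by linarith), lint_flat hρ0.le, ← ENNReal.ofReal_mul
    (mul_nonneg hκ (ZZ_nonneg (aa_pos hs R q).le _))]
  apply ENNReal.ofReal_le_ofReal
  -- scaling
  set β := b / ρ with hβ
  have hbβ : b = β * ρ := by rw [hβ]; field_simp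
  set σ := τ * R ^ 2 / ρ ^ 2 with hσ
  have hσρ : τ * R ^ 2 = σ * ρ ^ 2 := by rw [hσ]; field_simp
  have hστ : τ ≤ σ := by
    rw [hσ, le_div_iff₀ (by positivity)]
    have : ρ ^ 2 ≤ R ^ 2 := by rw [hρ2]; linarith
    exact mul_le_mul_of_nonneg_left this hτ
  have hM : m - q = ρ ^ 2 + σ * ρ ^ 2 := by
    rw [← hσρ, hρ2, hm]; ring
  have h1 := hOD β σ (by positivity) (by rw [hβ, div_le_one hρ0]; exact hbρ.le) hστ
  have hZ : ZZ (aa s R q) (2 * b)
      = 2 * Real.exp (-s * β ^ 2) - Real.exp (-(4 * s) * β ^ 2) := by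
    have x1 : -(s / (4 * ρ ^ 2)) * (2 * (β * ρ)) ^ 2 = -s * β ^ 2 := by
      field_simp; try ring
    have x2 : -(4 * (s / (4 * ρ ^ 2))) * (2 * (β * ρ)) ^ 2 = -(4 * s) * β ^ 2 := by
      field_simp; try ring
    rw [ZZ, aa, if_pos hq, ← hρ2, hbβ, x1, x2]
  rw [hZ, hM, hbβ]
  have h2 := mul_le_mul_of_nonneg_right h1 (by positivity : 0 ≤ ρ ^ 5)
  refine le_trans (le_of_eq ?_) (h2.trans (le_of_eq ?_))
  · rw [PP]; ring
  · ring

end Pool.Agent.PN
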