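import Pool.Agent.PN.Trace

set_option autoImplicit false

open MeasureTheory Filter Topology Set
open Pool.Agent.H51.Neumann
open scoped RealInnerProductSpace ContDiff ComplexConjugate

namespace Pool.Agent.PN

variable {n : ℕ} {Ω : Set (E n)} {ν : Measure (E n)}

theorem pw_mul_conj (ξ η x : E n) : pw ξ x * conj (pw η x) = pw (ξ - η) x := by
  rw [pw, pw, pw, ← Complex.exp_conj, ← Complex.exp_add]
  congr 1
  rw [inner_sub_left, map_mul, Complex.conj_ofReal, Complex.conj_I]
  push_cast; ring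

/-- `χ(h) = ∫_Ω e^{i⟨h,x⟩} dx` -/
noncomputable def chi (Ω : Set (E n)) (h : E n) : ℂ := AF Ω (fun _ => 1) h

theorem conj_chi (h : E n) : conj (chi Ω h) = chi Ω (-h) := by
  rw [chi, chi, AF, AF, ← integral_conj]
  refine integral_congr_ae (Eventually.of_forall fun x => ?_)
  simp only [mul_one]
  rw [pw, pw, ← Complex.exp_conj]
  congr 1
  rw [inner_neg_left, map_mul, Complex.conj_ofReal, Complex.conj_I]
  push_cast; ring

theorem chi_continuous (hfin : volume Ω ≠ ⊤) : Continuous (chi Ω) := by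
  have : IsFiniteMeasure (volume.restrict Ω) := ⟨by
    rw [Measure.restrict_apply_univ]; exact lt_top_iff_ne_top.2 hfin⟩
  exact AF_continuous (integrable_const _)

theorem chi_bdd (h : E n) : ‖chi Ω h‖ ≤ volume.real Ω := by
  refine (AF_bdd _ h).trans (le_of_eq ?_)
  simp [Measure.real]

theorem quad [IsFiniteMeasure ν] (hfin : volume Ω ≠ ⊤) {q : E n → ℂ} (hq : Integrable q ν) :
    Integrable (fun p : E n × E n => conj (q p.1) * q p.2 * chi Ω (p.2 - p.1)) (ν.prod ν) ∧
    ((∫ x in Ω, ‖uq ν q x‖ ^ 2 : ℝ) : ℂ)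
      = ∫ p, conj (q p.1) * q p.2 * chi Ω (p.2 - p.1) ∂(ν.prod ν) := by
  have hfm : IsFiniteMeasure (volume.restrict Ω) := ⟨by
    rw [Measure.restrict_apply_univ]; exact lt_top_iff_ne_top.2 hfin⟩
  have hqc : Integrable (fun ξ => conj (q ξ)) ν := by
    have := Complex.conjCLE.toContinuousLinearMap.integrable_comp hq
    exact this
  have hint : Integrable (fun p : E n × E n => conj (q p.1) * q p.2 * chi Ω (p.2 - p.1))
      (ν.prod ν) := by
    refine (hqc.mul_prod hq).mul_bdd (c := volume.real Ω) ?_ (Eventually.of_forall fun p =>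
      chi_bdd _)
    exact ((chi_continuous hfin).comp (continuous_snd.sub continuous_fst)).aestronglyMeasurable
  refine ⟨hint, ?_⟩
  have hum := uq_memLp hfin hq
  have hcu : Integrable (fun x => conj (uq ν q x)) (volume.restrict Ω) := by
    have := Complex.conjCLE.toContinuousLinearMap.integrable_comp (hum.integrable (by norm_num))
    exact this
  have e1 : ((∫ x in Ω, ‖uq ν q x‖ ^ 2 : ℝ) : ℂ) = ∫ x in Ω, uq ν q x * conj (uq ν q x) := by
    rw [← integral_complex_ofReal]
    refine integral_congr_ae (Eventually.of_forall fun x => ?_)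
    simp only
    rw [RCLike.mul_conj]; simp
  rw [e1, uq_swap hq hcu, integral_prod_symm _ hint]
  refine integral_congr_ae (Eventually.of_forall fun η => ?_)
  simp only
  have hpc : Integrable (fun x => conj (pw η x)) (volume.restrict Ω) := by
    refine Integrable.of_bound (C := 1) ?_ (Eventually.of_forall fun x => ?_)
    · exact (Complex.continuous_conj.comp (pw_continuous.comp (Continuous.prodMk continuous_const
        continuous_id))).aestronglyMeasurable
    · rw [RCLike.norm_conj, norm_pw]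
  have e2 : AF Ω (fun x => conj (uq ν q x)) η = ∫ ξ, conj (q ξ) * chi Ω (η - ξ) ∂ν := by
    have h1 : AF Ω (fun x => conj (uq ν q x)) η = conj (∫ x in Ω, uq ν q x * conj (pw η x)) := by
      rw [AF, ← integral_conj]
      refine integral_congr_ae (Eventually.of_forall fun x => ?_)
      simp only [map_mul, Complex.conj_conj]; ring
    rw [h1, uq_swap hq hpc, ← integral_conj]
    refine integral_congr_ae (Eventually.of_forall fun ξ => ?_)
    simp only [map_mul]
    congr 1
    have h2 : AF Ω (fun x => conj (pw η x)) ξ = chi Ω (ξ - η) := by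
      rw [chi, AF, AF]
      refine integral_congr_ae (Eventually.of_forall fun x => ?_)
      simp only [mul_one]
      exact pw_mul_conj ξ η x
    rw [h2, conj_chi, neg_sub]
  rw [e2, ← integral_const_mul]
  refine integral_congr_ae (Eventually.of_forall fun ξ => ?_)
  simp only; ring

section

variable {μ : ℕ → ℝ} {u : ℕ → E n → ℝ} {g : ℕ → E n → E n}

theorem rank_ineq [IsFiniteMeasure ν] (hΩ : MeasurableSet Ω) (hfin : volume Ω ≠ ⊤) {R : ℝ}
    (hν : ∀ᵐ ξ ∂ν, ‖ξ‖ ≤ R) (N : NData Ω μ u g) (j : ℕ) (hj : 1 ≤ j)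
    (hS : 0 ≤ volume.real Ω * ∫ ξ, (μ j - ‖ξ‖ ^ 2) ∂ν) :
    (volume.real Ω * ∫ ξ, (μ j - ‖ξ‖ ^ 2) ∂ν) ^ 2
      ≤ j * ∫ p, (μ j - ⟪p.1, p.2⟫) ^ 2 * ‖chi Ω (p.2 - p.1)‖ ^ 2 ∂(ν.prod ν) := by
  obtain ⟨r, hr, q, hq, hon, htr⟩ := trace_le hΩ hfin hν N j
  have hqi : ∀ k, Integrable (q k) ν := fun k => (hq k).integrable (by norm_num)
  have hdi : ∀ k l, Integrable (dl (q k) l) ν := fun k l => dl_integrable hν (hqi k) l
  set S := volume.real Ω * ∫ ξ, (μ j - ‖ξ‖ ^ 2) ∂ν with hSdef
  set m := μ j with hm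
  let K : E n × E n → ℂ := fun p => ((m - ⟪p.1, p.2⟫ : ℝ) : ℂ) * chi Ω (p.2 - p.1)
  let T : E n × E n → ℂ := fun p => ∑ k, conj (q k p.1) * q k p.2
  have hKc : Continuous K := by
    refine Continuous.mul ?_ ((chi_continuous hfin).comp (continuous_snd.sub continuous_fst))
    fun_prop
  have hb : ∀ᵐ p ∂(ν.prod ν), ‖p.1‖ ≤ R ∧ ‖p.2‖ ≤ R := by
    have h1 : ∀ᵐ p ∂(ν.prod ν), ‖p.1‖ ≤ R := Measure.quasiMeasurePreserving_fst.ae hν
    have h2 : ∀ᵐ p ∂(ν.prod ν), ‖p.2‖ ≤ R := Measure.quasiMeasurePreserving_snd.ae hν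
    filter_upwards [h1, h2] with p a b using ⟨a, b⟩
  have hKb : ∀ᵐ p ∂(ν.prod ν), ‖K p‖ ≤ (|m| + R ^ 2) * volume.real Ω := by
    filter_upwards [hb] with p hp
    have h0 : 0 ≤ R := (norm_nonneg _).trans hp.1
    rw [norm_mul, Complex.norm_real, Real.norm_eq_abs]
    refine mul_le_mul ?_ (chi_bdd _) (norm_nonneg _) (by positivity)
    refine (abs_sub _ _).trans ?_
    gcongr
    refine (abs_real_inner_le_norm _ _).trans ?_
    rw [sq]
    exact mul_le_mul hp.1 hp.2 (norm_nonneg _) h0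
  have hKm : MemLp K 2 (ν.prod ν) := MemLp.of_bound hKc.aestronglyMeasurable _ hKb
  have hqc : ∀ k, MemLp (fun ξ => conj (q k ξ)) 2 ν := fun k => (hq k).star
  have hTm : MemLp T 2 (ν.prod ν) := memLp_finsetSum _ fun k _ => memLp_mul_prod (hqc k) (hq k)
  have hKT : Integrable (fun p => K p * T p) (ν.prod ν) := hKm.integrable_mul hTm
  -- the sum as an integral
  have hsum : ((∑ k, (m * (∫ x in Ω, ‖uq ν (q k) x‖ ^ 2)
      - ∑ l, ∫ x in Ω, ‖uq ν (dl (q k) l) x‖ ^ 2) : ℝ) : ℂ) = ∫ p, K p * T p ∂(ν.prod ν) := by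
    have e0 : ∀ p, K p * T p = ∑ k, ((m : ℂ) * (conj (q k p.1) * q k p.2 * chi Ω (p.2 - p.1))
        - ∑ l, conj (dl (q k) l p.1) * dl (q k) l p.2 * chi Ω (p.2 - p.1)) := by
      intro p
      simp only [K, T]
      rw [Finset.mul_sum]
      refine Finset.sum_congr rfl fun k _ => ?_
      have e3 : ∑ l, conj (dl (q k) l p.1) * dl (q k) l p.2 * chi Ω (p.2 - p.1)
          = ((⟪p.1, p.2⟫ : ℝ) : ℂ) * (conj (q k p.1) * q k p.2 * chi Ω (p.2 - p.1)) := by
        rw [PiLp.inner_apply]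
        simp only [RCLike.inner_apply, conj_trivial]
        push_cast
        rw [Finset.sum_mul]
        refine Finset.sum_congr rfl fun l _ => ?_
        simp only [dl, map_mul, Complex.conj_I, Complex.conj_ofReal]
        linear_combination (-((p.1 l : ℂ) * (p.2 l : ℂ) * conj (q k p.1) * q k p.2
          * chi Ω (p.2 - p.1))) * Complex.I_sq
      rw [e3]
      push_cast; ring
    simp only [e0]
    have i1 : ∀ k, Integrable (fun p : E n × E n => (m : ℂ) * (conj (q k p.1) * q k p.2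
        * chi Ω (p.2 - p.1))) (ν.prod ν) := fun k => (quad hfin (hqi k)).1.const_mul _
    have i2 : ∀ k, Integrable (fun p : E n × E n => ∑ l, conj (dl (q k) l p.1) * dl (q k) l p.2
        * chi Ω (p.2 - p.1)) (ν.prod ν) := fun k =>
      integrable_finsetSum _ fun l _ => (quad hfin (hdi k l)).1
    have i12 : ∀ k, Integrable (fun p : E n × E n => (m : ℂ) * (conj (q k p.1) * q k p.2
        * chi Ω (p.2 - p.1)) - ∑ l, conj (dl (q k) l p.1) * dl (q k) l p.2
        * chi Ω (p.2 - p.1)) (ν.prod ν) := fun k => (i1 k).sub (i2 k)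
    rw [integral_finsetSum _ fun k _ => i12 k]
    push_cast
    refine Finset.sum_congr rfl fun k _ => ?_
    rw [integral_sub (i1 k) (i2 k), integral_const_mul,
      integral_finsetSum _ fun l _ => (quad hfin (hdi k l)).1, ← (quad hfin (hqi k)).2]
    congr 1
    exact Finset.sum_congr rfl fun l _ => (quad hfin (hdi k l)).2
  have hsumR : (∑ k, (m * (∫ x in Ω, ‖uq ν (q k) x‖ ^ 2)
      - ∑ l, ∫ x in Ω, ‖uq ν (dl (q k) l) x‖ ^ 2)) = ∫ p, (K p * T p).re ∂(ν.prod ν) := by
    have h1 := congrArg Complex.re hsum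
    rw [Complex.ofReal_re] at h1
    rw [h1]
    have h2 := Complex.reCLM.integral_comp_comm hKT
    simp only [Complex.reCLM_apply] at h2
    exact h2.symm
  -- Hilbert-Schmidt norm of T
  have hTn : ∫ p, ‖T p‖ ^ 2 ∂(ν.prod ν) = r := by
    have e1 : ((∫ p, ‖T p‖ ^ 2 ∂(ν.prod ν) : ℝ) : ℂ)
        = ∫ p, ∑ k, ∑ l, (conj (q k p.1) * q l p.1) * (q k p.2 * conj (q l p.2)) ∂(ν.prod ν) := by
      rw [← integral_complex_ofReal]
      refine integral_congr_ae (Eventually.of_forall fun p => ?_)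
      simp only
      have : ((‖T p‖ ^ 2 : ℝ) : ℂ) = T p * conj (T p) := by
        rw [RCLike.mul_conj]; simp
      rw [this]
      simp only [T, map_sum, map_mul, Complex.conj_conj]
      rw [Finset.sum_mul_sum]
      exact Finset.sum_congr rfl fun k _ => Finset.sum_congr rfl fun l _ => by ring
    have i0 : ∀ k l, Integrable (fun p : E n × E n => (conj (q k p.1) * q l p.1)
        * (q k p.2 * conj (q l p.2))) (ν.prod ν) := fun k l =>
      ((hqc k).integrable_mul (hq l)).mul_prod ((hq k).integrable_mul (hqc l))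
    rw [integral_finsetSum _ fun k _ => integrable_finsetSum _ fun l _ => i0 k l] at e1
    have e2 : ∀ k, ∫ p, ∑ l, (conj (q k p.1) * q l p.1) * (q k p.2 * conj (q l p.2))
        ∂(ν.prod ν) = 1 := by
      intro k
      rw [integral_finsetSum _ fun l _ => i0 k l]
      have e3 : ∀ l, ∫ p, (conj (q k p.1) * q l p.1) * (q k p.2 * conj (q l p.2)) ∂(ν.prod ν)
          = if k = l then 1 else 0 := by
        intro l
        have h1 := integral_prod_mul (μ := ν) (ν := ν) (fun ξ => conj (q k ξ) * q l ξ)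
          (fun ξ => q k ξ * conj (q l ξ))
        rw [h1, hon]
        have h2 : ∫ ξ, q k ξ * conj (q l ξ) ∂ν = if l = k then 1 else 0 := by
          rw [← hon l k]
          refine integral_congr_ae (Eventually.of_forall fun ξ => ?_)
          simp only; ring
        rw [h2]
        by_cases h : k = l
        · rw [if_pos h, if_pos h.symm, one_mul]
        · rw [if_neg h, zero_mul]
      simp only [e3]
      simp
    simp only [e2] at e1
    have e4 := congrArg Complex.re e1
    simpa using e4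
  have hKn : ∫ p, ‖K p‖ ^ 2 ∂(ν.prod ν)
      = ∫ p, (m - ⟪p.1, p.2⟫) ^ 2 * ‖chi Ω (p.2 - p.1)‖ ^ 2 ∂(ν.prod ν) := by
    refine integral_congr_ae (Eventually.of_forall fun p => ?_)
    simp only [K]
    rw [norm_mul, mul_pow, Complex.norm_real, Real.norm_eq_abs, sq_abs]
  have hKi := (memLp_two_iff_integrable_sq_norm hKm.1).1 hKm
  have hTi := (memLp_two_iff_integrable_sq_norm hTm.1).1 hTm
  have hmain : ∀ t : ℝ, 0 < t → S ≤ t / 2 * j + 1 / (2 * t) *
      ∫ p, (m - ⟪p.1, p.2⟫) ^ 2 * ‖chi Ω (p.2 - p.1)‖ ^ 2 ∂(ν.prod ν) := by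
    intro t ht
    refine htr.trans ?_
    rw [hsumR]
    have h1 : ∫ p, (K p * T p).re ∂(ν.prod ν)
        ≤ ∫ p, (t / 2 * ‖T p‖ ^ 2 + 1 / (2 * t) * ‖K p‖ ^ 2) ∂(ν.prod ν) := by
      refine integral_mono hKT.re ((hTi.const_mul _).add (hKi.const_mul _)) fun p => ?_
      have h2 : (K p * T p).re ≤ ‖K p‖ * ‖T p‖ := by
        rw [← norm_mul]; exact Complex.re_le_norm _
      have h3 : 0 ≤ (t * ‖T p‖ - ‖K p‖) ^ 2 / (2 * t) := by positivity
      have h4 : (t * ‖T p‖ - ‖K p‖) ^ 2 / (2 * t)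
          = t / 2 * ‖T p‖ ^ 2 + 1 / (2 * t) * ‖K p‖ ^ 2 - ‖K p‖ * ‖T p‖ := by
        field_simp; ring
      simp only
      change (K p * T p).re ≤ _
      linarith
    rw [integral_add (hTi.const_mul _) (hKi.const_mul _), integral_const_mul,
      integral_const_mul, hTn, hKn] at h1
    refine h1.trans ?_
    have : (r : ℝ) ≤ j := by exact_mod_cast hr
    gcongr
  have hj' : (1 : ℝ) ≤ j := by exact_mod_cast hj
  have hQ : 0 ≤ ∫ p, (m - ⟪p.1, p.2⟫) ^ 2 * ‖chi Ω (p.2 - p.1)‖ ^ 2 ∂(ν.prod ν) :=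
    integral_nonneg fun p => by positivity
  rcases hS.eq_or_lt with h0 | h0
  · rw [← h0]; simp only [ne_eq, OfNat.ofNat_ne_zero, not_false_eq_true, zero_pow]; positivity
  · have h5 := hmain (S / j) (by positivity)
    have h6 : S / j / 2 * j = S / 2 := by field_simp
    rw [h6] at h5
    have h7 : S / 2 ≤ 1 / (2 * (S / j)) *
      ∫ p, (m - ⟪p.1, p.2⟫) ^ 2 * ‖chi Ω (p.2 - p.1)‖ ^ 2 ∂(ν.prod ν) := by linarith
    have h8 : 1 / (2 * (S / j)) = j / (2 * S) := by field_simp
    rw [h8, div_mul_eq_mul_div, le_div_iff₀ (by positivity)] at h7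
    nlinarith

end

end Pool.Agent.PN
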