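import Pool.Agent.PN.OneD

set_option autoImplicit false

open MeasureTheory Filter Topology Set
open Pool.Agent.H51.Neumann
open scoped RealInnerProductSpace ContDiff ComplexConjugate ENNReal

namespace Pool.Agent.PN

/-- volume of the unit ball -/
noncomputable def om (n : ℕ) : ℝ := volume.real (Metric.ball (0 : E n) 1)

theorem om_pos (n : ℕ) : 0 < om n := by
  rw [om, Measure.real, ENNReal.toReal_pos_iff]
  exact ⟨Metric.measure_ball_pos _ _ one_pos, measure_ball_lt_top⟩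

theorem radial {k : ℕ} {R : ℝ} (hR : 0 < R) (f : ℝ → ℝ) :
    ∫ ξ : E (k + 1), wf R (‖ξ‖ ^ 2) * f ‖ξ‖
      = (k + 1) * om (k + 1) * ∫ y in (0 : ℝ)..R, y ^ k * f y := by
  have : Nontrivial (E (k + 1)) := by
    have : Nonempty (Fin (k + 1)) := ⟨0⟩
    infer_instance
  have h := integral_fun_norm_addHaar (volume : Measure (E (k + 1)))
    (fun y => wf R (y ^ 2) * f y)
  rw [h]
  have e1 : ∫ y in Ioi (0 : ℝ), y ^ (Module.finrank ℝ (E (k + 1)) - 1) • (wf R (y ^ 2) * f y)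
      = ∫ y in (0 : ℝ)..R, y ^ k * f y := by
    rw [intervalIntegral.integral_of_le hR.le, integral_Ioc_eq_integral_Ioo]
    have e2 : ∀ y ∈ Ioi (0 : ℝ), y ^ (Module.finrank ℝ (E (k + 1)) - 1) • (wf R (y ^ 2) * f y)
        = (Iio R).indicator (fun y => y ^ k * f y) y := by
      intro y hy
      have hy' : 0 < y := hy
      simp only [finrank_euclideanSpace, Fintype.card_fin, Nat.add_sub_cancel, smul_eq_mul]
      by_cases hyR : y < R
      · rw [indicator_of_mem (show y ∈ Iio R from hyR), wf_of_lt (by nlinarith)]; ring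
      · rw [indicator_of_notMem (show y ∉ Iio R from hyR), wf_of_le (by nlinarith)]; ring
    rw [setIntegral_congr_fun measurableSet_Ioi e2, setIntegral_indicator measurableSet_Iio,
      Ioi_inter_Iio]
  rw [e1, nsmul_eq_mul, smul_eq_mul, om]
  simp only [finrank_euclideanSpace, Fintype.card_fin]
  push_cast; ring

theorem S_val {k : ℕ} {R : ℝ} (hR : 0 < R) (m : ℝ) :
    ∫ ξ : E (k + 1), wf R (‖ξ‖ ^ 2) * (m - ‖ξ‖ ^ 2)
      = om (k + 1) * R ^ (k + 1) * (m - (k + 1) * R ^ 2 / (k + 3)) := by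
  rw [radial hR (fun y => m - y ^ 2)]
  have e : ∀ y : ℝ, y ^ k * (m - y ^ 2) = m * y ^ k - y ^ (k + 2) := by intro y; ring
  simp only [e]
  rw [intervalIntegral.integral_sub (Continuous.intervalIntegrable (by fun_prop) _ _)
    (Continuous.intervalIntegrable (by fun_prop) _ _), intervalIntegral.integral_const_mul,
    integral_pow, integral_pow]
  have h1 : (k : ℝ) + 1 ≠ 0 := by positivity
  have h2 : (k : ℝ) + 3 ≠ 0 := by positivity
  have h3 : (k : ℝ) + 2 + 1 ≠ 0 := by positivity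
  push_cast
  rw [zero_pow (by omega), zero_pow (by omega)]
  field_simp
  ring

theorem D_val {k : ℕ} {R : ℝ} (hR : 0 < R) (m : ℝ) :
    ∫ ξ : E (k + 1), (wf R (‖ξ‖ ^ 2)) ^ 2 * (m - ‖ξ‖ ^ 2) ^ 2
      = om (k + 1) * R ^ (k + 1) * (m ^ 2 - 2 * (k + 1) * m * R ^ 2 / (k + 3)
        + (k + 1) * R ^ 4 / (k + 5)) := by
  have e0 : ∀ ξ : E (k + 1), (wf R (‖ξ‖ ^ 2)) ^ 2 * (m - ‖ξ‖ ^ 2) ^ 2
      = wf R (‖ξ‖ ^ 2) * (m - ‖ξ‖ ^ 2) ^ 2 := by
    intro ξ
    by_cases h : ‖ξ‖ ^ 2 < R ^ 2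
    · rw [wf_of_lt h]; ring
    · rw [wf_of_le (not_lt.1 h)]; ring
  simp only [e0]
  rw [radial hR (fun y => (m - y ^ 2) ^ 2)]
  have e : ∀ y : ℝ, y ^ k * (m - y ^ 2) ^ 2 = m ^ 2 * y ^ k - 2 * m * y ^ (k + 2)
      + y ^ (k + 4) := by intro y; ring
  simp only [e]
  rw [intervalIntegral.integral_add (Continuous.intervalIntegrable (by fun_prop) _ _)
    (Continuous.intervalIntegrable (by fun_prop) _ _),
    intervalIntegral.integral_sub (Continuous.intervalIntegrable (by fun_prop) _ _)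
    (Continuous.intervalIntegrable (by fun_prop) _ _), intervalIntegral.integral_const_mul,
    intervalIntegral.integral_const_mul,
    integral_pow, integral_pow, integral_pow]
  have h1 : (k : ℝ) + 1 ≠ 0 := by positivity
  have h2 : (k : ℝ) + 3 ≠ 0 := by positivity
  have h3 : (k : ℝ) + 2 + 1 ≠ 0 := by positivity
  have h4 : (k : ℝ) + 5 ≠ 0 := by positivity
  have h5 : (k : ℝ) + 4 + 1 ≠ 0 := by positivity
  push_cast
  rw [zero_pow (by omega), zero_pow (by omega), zero_pow (by omega)]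
  field_simp
  ring

/-- `A = 2/(n+2) + τ` -/
noncomputable def Ac (n : ℕ) (τ : ℝ) : ℝ := 2 / (n + 2) + τ

/-- `B = 8/((n+2)(n+4)) + 4τ/(n+2) + τ²` -/
noncomputable def Bc (n : ℕ) (τ : ℝ) : ℝ := 8 / ((n + 2) * (n + 4)) + 4 * τ / (n + 2) + τ ^ 2

/-- The Weyl term. -/
noncomputable def WW (n : ℕ) (V : ℝ) (j : ℕ) : ℝ :=
  (2 * Real.pi) ^ 2 * ((j : ℝ) / (om n * V)) ^ (2 / (n : ℝ))

theorem main {k : ℕ} {Ω : Set (E (k + 1))} (hΩ : MeasurableSet Ω) (hfin : volume Ω ≠ ⊤)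
    (hpos : 0 < volume.real Ω)
    {μ : ℕ → ℝ} {u : ℕ → E (k + 1) → ℝ} {g : ℕ → E (k + 1) → E (k + 1)} (N : NData Ω μ u g)
    {j : ℕ} (hj : 1 ≤ j) {κ s τ : ℝ} (hOD : OD κ s τ) (hs : 0 < s) (hκ : 0 < κ) (hτ : 0 ≤ τ) :
    μ j ≤ (1 + τ) * (κ * Bc (k + 1) τ / Ac (k + 1) τ ^ 2) ^ (2 / ((k + 1 : ℕ) : ℝ))
      * WW (k + 1) (volume.real Ω) j := by
  have hom := om_pos (k + 1)
  have hA : 0 < Ac (k + 1) τ := by unfold Ac; positivity
  have hB : 0 < Bc (k + 1) τ := by unfold Bc; positivity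
  have hW : 0 ≤ WW (k + 1) (volume.real Ω) j := by unfold WW; positivity
  rcases le_or_gt (μ j) 0 with h0 | h0
  · exact h0.trans (by positivity)
  set R := Real.sqrt (μ j / (1 + τ)) with hRdef
  have hR : 0 < R := Real.sqrt_pos.2 (by positivity)
  have hR2 : R ^ 2 = μ j / (1 + τ) := Real.sq_sqrt (by positivity)
  have hm : μ j = (1 + τ) * R ^ 2 := by rw [hR2]; field_simp
  have hH := flat_H hOD hs hκ.le hτ hm
  have hSv := S_val (k := k) hR (μ j)
  have hDv := D_val (k := k) hR (μ j)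
  have hSA : ∫ ξ : E (k + 1), wf R (‖ξ‖ ^ 2) * (μ j - ‖ξ‖ ^ 2)
      = om (k + 1) * R ^ (k + 1) * (R ^ 2 * Ac (k + 1) τ) := by
    rw [hSv, hm, Ac]
    congr 1
    have h2 : (k : ℝ) + 3 ≠ 0 := by positivity
    have h3 : (k : ℝ) + 1 + 2 ≠ 0 := by positivity
    push_cast
    field_simp
    ring
  have hDB : ∫ ξ : E (k + 1), (wf R (‖ξ‖ ^ 2)) ^ 2 * (μ j - ‖ξ‖ ^ 2) ^ 2
      = om (k + 1) * R ^ (k + 1) * (R ^ 4 * Bc (k + 1) τ) := by
    rw [hDv, hm, Bc]
    congr 1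
    have h2 : (k : ℝ) + 3 ≠ 0 := by positivity
    have h3 : (k : ℝ) + 1 + 2 ≠ 0 := by positivity
    have h4 : (k : ℝ) + 5 ≠ 0 := by positivity
    have h5 : (k : ℝ) + 1 + 4 ≠ 0 := by positivity
    push_cast
    field_simp
    ring
  have hb := bound hΩ hfin hpos N hj (wf_wt R) hR (aa_meas s R) (aa_pos hs R) hκ.le hH (by
    rw [hSA]; positivity)
  rw [hSA, hDB] at hb
  set V := volume.real Ω with hV
  set A := Ac (k + 1) τ with hAdef
  set B := Bc (k + 1) τ with hBdef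
  set w0 := om (k + 1) with hw0def
  set X := κ * B / A ^ 2 with hX
  have hXp : 0 < X := by positivity
  have hRX : R ^ (k + 1) ≤ (2 * Real.pi) ^ (k + 1) * (j / (w0 * V)) * X := by
    have e1 : (w0 * V * R ^ (k + 1) * A ^ 2) * (w0 * R ^ (k + 1) * R ^ 4)
        ≤ (j * (κ * (2 * Real.pi) ^ (k + 1) * B)) * (w0 * R ^ (k + 1) * R ^ 4) := by
      refine le_trans (le_of_eq ?_) (hb.trans (le_of_eq ?_))
      · ring
      · ring
    have e2 := le_of_mul_le_mul_right e1 (by positivity)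
    rw [hX]
    have e3 : (2 * Real.pi) ^ (k + 1) * (j / (w0 * V)) * (κ * B / A ^ 2)
        = (j * (κ * (2 * Real.pi) ^ (k + 1) * B)) / (w0 * V * A ^ 2) := by field_simp
    rw [e3, le_div_iff₀ (by positivity)]
    linarith
  have hn : ((k + 1 : ℕ) : ℝ) ≠ 0 := by positivity
  have hR2' : R ^ 2 ≤ (2 * Real.pi) ^ 2 * (j / (w0 * V)) ^ (2 / ((k + 1 : ℕ) : ℝ))
      * X ^ (2 / ((k + 1 : ℕ) : ℝ)) := by
    have e1 := Real.rpow_le_rpow (by positivity) hRX
      (by positivity : 0 ≤ 2 / ((k + 1 : ℕ) : ℝ))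
    rw [Real.mul_rpow (by positivity) hXp.le, Real.mul_rpow (by positivity) (by positivity),
      ← Real.rpow_natCast, ← Real.rpow_natCast, ← Real.rpow_mul hR.le,
      ← Real.rpow_mul (by positivity)] at e1
    have e2 : ((k + 1 : ℕ) : ℝ) * (2 / ((k + 1 : ℕ) : ℝ)) = 2 := by field_simp
    rw [e2] at e1
    have e3 : ∀ x : ℝ, x ^ (2 : ℝ) = x ^ 2 := fun x => by
      rw [show (2 : ℝ) = ((2 : ℕ) : ℝ) by norm_num, Real.rpow_natCast]
    rw [e3, e3] at e1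
    exact e1
  rw [hm, WW]
  calc (1 + τ) * R ^ 2 ≤ (1 + τ) * ((2 * Real.pi) ^ 2 * (j / (w0 * V)) ^ (2 / ((k + 1 : ℕ) : ℝ))
      * X ^ (2 / ((k + 1 : ℕ) : ℝ))) := by gcongr
    _ = _ := by ring

end Pool.Agent.PN
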