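import Pool.Agent.PN.Flat
import Pool.Agent.PN.Poly

set_option autoImplicit false

open MeasureTheory Filter Topology Set

namespace Pool.Agent.PN

/-- Taylor polynomial of `e^{-t}` -/
noncomputable def TT (m : ℕ) (t : ℝ) : ℝ := ∑ k ∈ Finset.range m, (-t) ^ k / (k.factorial : ℝ)

theorem TT_deriv (m : ℕ) (t : ℝ) : HasDerivAt (TT (m + 1)) (-TT m t) t := by
  induction m with
  | zero =>
    have : TT 1 = fun _ => 1 := by
      funext x; simp [TT]
    simp only [zero_add, this, TT, Finset.range_zero, Finset.sum_empty, neg_zero]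
    exact hasDerivAt_const _ _
  | succ m ih =>
    have e1 : TT (m + 1 + 1) = fun t => TT (m + 1) t
        + (-t) ^ (m + 1) / ((m + 1).factorial : ℝ) := by
      funext x; rw [TT, Finset.sum_range_succ, ← TT]
    rw [e1]
    have h2 : HasDerivAt (fun t : ℝ => (-t) ^ (m + 1) / ((m + 1).factorial : ℝ))
        (((m + 1 : ℕ) * (-t) ^ m * (-1)) / ((m + 1).factorial : ℝ)) t := by
      have := ((hasDerivAt_id t).neg).pow (m + 1)
      simpa using this.div_const ((m + 1).factorial : ℝ)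
    refine (ih.add h2).congr_deriv ?_
    have e2 : TT (m + 1) t = TT m t + (-t) ^ m / (m.factorial : ℝ) := by
      rw [TT, Finset.sum_range_succ, ← TT]
    rw [e2, Nat.factorial_succ]
    push_cast
    field_simp
    ring

theorem exp_alt (m : ℕ) : ∀ t : ℝ, 0 ≤ t → 0 ≤ (-1) ^ m * (Real.exp (-t) - TT m t) := by
  induction m with
  | zero => intro t _; simp [TT, (Real.exp_pos _).le]
  | succ m ih =>
    intro t ht
    set f : ℝ → ℝ := fun t => (-1) ^ (m + 1) * (Real.exp (-t) - TT (m + 1) t) with hf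
    have hd : ∀ x, HasDerivAt f ((-1) ^ m * (Real.exp (-x) - TT m x)) x := by
      intro x
      have h1 : HasDerivAt (fun t : ℝ => Real.exp (-t)) (Real.exp (-x) * (-1)) x :=
        (hasDerivAt_neg x).exp
      refine ((h1.sub (TT_deriv m x)).const_mul ((-1 : ℝ) ^ (m + 1))).congr_deriv ?_
      rw [pow_succ]; ring
    have hmono : MonotoneOn f (Ici 0) := by
      refine monotoneOn_of_deriv_nonneg (convex_Ici 0)
        (fun x _ => (hd x).continuousAt.continuousWithinAt)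
        (fun x _ => (hd x).differentiableAt.differentiableWithinAt) fun x hx => ?_
      rw [(hd x).deriv]
      rw [interior_Ici] at hx
      exact ih x (le_of_lt hx)
    have h0 : f 0 = 0 := by
      simp only [hf, neg_zero, Real.exp_zero]
      have : TT (m + 1) 0 = 1 := by
        rw [TT, Finset.sum_range_succ']
        simp
      rw [this]; ring
    have := hmono (mem_Ici.2 le_rfl) (mem_Ici.2 ht) ht
    rw [h0] at this
    exact this

theorem exp_ge4 {t : ℝ} (ht : 0 ≤ t) : 1 - t + t ^ 2 / 2 - t ^ 3 / 6 ≤ Real.exp (-t) := by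
  have := exp_alt 4 t ht
  norm_num [TT, Finset.sum_range_succ, Nat.factorial] at this
  linarith

theorem exp_ge6 {t : ℝ} (ht : 0 ≤ t) :
    1 - t + t ^ 2 / 2 - t ^ 3 / 6 + t ^ 4 / 24 - t ^ 5 / 120 ≤ Real.exp (-t) := by
  have := exp_alt 6 t ht
  norm_num [TT, Finset.sum_range_succ, Nat.factorial] at this
  ring_nf at this ⊢
  linarith

theorem exp_le7 {t : ℝ} (ht : 0 ≤ t) : Real.exp (-t) ≤
    1 - t + t ^ 2 / 2 - t ^ 3 / 6 + t ^ 4 / 24 - t ^ 5 / 120 + t ^ 6 / 720 := by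
  have := exp_alt 7 t ht
  norm_num [TT, Finset.sum_range_succ, Nat.factorial] at this
  ring_nf at this ⊢
  linarith

theorem OD_of {κ s τ : ℝ} (hτ : 0 ≤ τ)
    (hA : ∀ β : ℝ, 0 ≤ β → β ≤ 1 →
      16 / 15 * PP β + 8 / 3 * τ * (1 - β ^ 3) + 2 * τ ^ 2 * (1 - β)
        ≤ κ * (2 * Real.exp (-s * β ^ 2) - Real.exp (-(4 * s) * β ^ 2))
          * (16 / 15 + 8 / 3 * τ + 2 * τ ^ 2))
    (hB : ∀ β : ℝ, 0 ≤ β → β ≤ 1 →
      1 - β ^ 3 ≤ κ * (2 * Real.exp (-s * β ^ 2) - Real.exp (-(4 * s) * β ^ 2))) :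
    OD κ s τ := by
  intro β σ h0 h1 hσ
  have a := hA β h0 h1
  have b := hB β h0 h1
  set Z := κ * (2 * Real.exp (-s * β ^ 2) - Real.exp (-(4 * s) * β ^ 2)) with hZ
  have c : 1 - β ≤ Z := by
    refine le_trans ?_ b
    nlinarith [mul_nonneg h0 (mul_nonneg (sub_nonneg.2 h1) (by linarith : 0 ≤ 1 + β))]
  have d1 : 0 ≤ (σ - τ) * (Z - (1 - β ^ 3)) := mul_nonneg (by linarith) (by linarith)
  have d2 : 0 ≤ (σ ^ 2 - τ ^ 2) * (Z - (1 - β)) := by
    refine mul_nonneg ?_ (by linarith)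
    nlinarith
  nlinarith

theorem OD_zero : OD (25 / 23) (3 / 4) 0 := by
  refine OD_of le_rfl ?_ ?_
  · intro β h0 h1
    have e1 := exp_ge4 (t := 3 / 4 * β ^ 2) (by positivity)
    have e2 := exp_le7 (t := 4 * (3 / 4) * β ^ 2) (by positivity)
    have p := polyA0 β h0 h1
    rw [show -(3 / 4 : ℝ) * β ^ 2 = -(3 / 4 * β ^ 2) by ring,
      show -(4 * (3 / 4) : ℝ) * β ^ 2 = -(4 * (3 / 4) * β ^ 2) by ring]
    set x := Real.exp (-(3 / 4 * β ^ 2)) with hx
    set y := Real.exp (-(4 * (3 / 4) * β ^ 2)) with hy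
    rw [PP]
    ring_nf at e1 e2 p ⊢
    linarith
  · intro β h0 h1
    have e1 := exp_ge4 (t := 3 / 4 * β ^ 2) (by positivity)
    have e2 := exp_le7 (t := 4 * (3 / 4) * β ^ 2) (by positivity)
    have p := polyB0 β h0 h1
    rw [show -(3 / 4 : ℝ) * β ^ 2 = -(3 / 4 * β ^ 2) by ring,
      show -(4 * (3 / 4) : ℝ) * β ^ 2 = -(4 * (3 / 4) * β ^ 2) by ring]
    set x := Real.exp (-(3 / 4 * β ^ 2)) with hx
    set y := Real.exp (-(4 * (3 / 4) * β ^ 2)) with hy
    ring_nf at e1 e2 p ⊢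
    linarith

theorem OD_one : OD 1 (43 / 50) (1 / 10) := by
  refine OD_of (by norm_num) ?_ ?_
  · intro β h0 h1
    have e1 := exp_ge6 (t := 43 / 50 * β ^ 2) (by positivity)
    have e2 := exp_le7 (t := 4 * (43 / 50) * β ^ 2) (by positivity)
    have p := polyA1 β h0 h1
    rw [show -(43 / 50 : ℝ) * β ^ 2 = -(43 / 50 * β ^ 2) by ring,
      show -(4 * (43 / 50) : ℝ) * β ^ 2 = -(4 * (43 / 50) * β ^ 2) by ring]
    set x := Real.exp (-(43 / 50 * β ^ 2)) with hx
    set y := Real.exp (-(4 * (43 / 50) * β ^ 2)) with hy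
    rw [PP]
    ring_nf at e1 e2 p ⊢
    linarith
  · intro β h0 h1
    have e1 := exp_ge6 (t := 43 / 50 * β ^ 2) (by positivity)
    have e2 := exp_le7 (t := 4 * (43 / 50) * β ^ 2) (by positivity)
    have p := polyB1 β h0 h1
    rw [show -(43 / 50 : ℝ) * β ^ 2 = -(43 / 50 * β ^ 2) by ring,
      show -(4 * (43 / 50) : ℝ) * β ^ 2 = -(4 * (43 / 50) * β ^ 2) by ring]
    set x := Real.exp (-(43 / 50 * β ^ 2)) with hx
    set y := Real.exp (-(4 * (43 / 50) * β ^ 2)) with hy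
    ring_nf at e1 e2 p ⊢
    linarith

end Pool.Agent.PN
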