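import Mathlib

set_option autoImplicit false

open MeasureTheory Filter Topology Set
open scoped ComplexConjugate

namespace Pool.Agent.PN

variable {X : Type*} [MeasurableSpace X] {ν : Measure X}

theorem inner_toLp (a b : X → ℂ) (ha : MemLp a 2 ν) (hb : MemLp b 2 ν) :
    inner ℂ (ha.toLp a) (hb.toLp b) = ∫ ξ, conj (a ξ) * b ξ ∂ν := by
  rw [L2.inner_def]
  refine integral_congr_ae ?_
  filter_upwards [ha.coeFn_toLp, hb.coeFn_toLp] with x h1 h2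
  rw [h1, h2, RCLike.inner_apply, mul_comm]

/-- An orthonormal system of functions, with span containing given functions. -/
theorem exists_on (j : ℕ) (a : ℕ → X → ℂ) (ha : ∀ i, MemLp (a i) 2 ν) :
    ∃ r : ℕ, r ≤ j ∧ ∃ q : Fin r → X → ℂ, (∀ k, MemLp (q k) 2 ν) ∧
      (∀ k l, ∫ ξ, conj (q k ξ) * q l ξ ∂ν = if k = l then 1 else 0) ∧
      ∀ i < j, a i =ᵐ[ν] fun ξ => ∑ k, (∫ η, conj (q k η) * a i η ∂ν) * q k ξ := by
  let A : Fin j → Lp ℂ 2 ν := fun i => (ha i).toLp (a i)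
  let V : Submodule ℂ (Lp ℂ 2 ν) := Submodule.span ℂ (Set.range A)
  have hfd : FiniteDimensional ℂ V := FiniteDimensional.span_of_finite ℂ (Set.finite_range A)
  let b := stdOrthonormalBasis ℂ V
  have hr : Module.finrank ℂ V ≤ j := by
    have : Module.finrank ℂ V ≤ Fintype.card (Fin j) := finrank_range_le_card (R := ℂ) A
    simpa using this
  have hb : Orthonormal ℂ fun k => ((b k : V) : Lp ℂ 2 ν) := by
    have := b.orthonormal
    exact this.comp_linearIsometry V.subtypeₗᵢ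
  have hm : ∀ k, MemLp (⇑((b k : V) : Lp ℂ 2 ν)) 2 ν := fun k => Lp.memLp _
  refine ⟨Module.finrank ℂ V, hr, fun k => ⇑((b k : V) : Lp ℂ 2 ν), hm, ?_, ?_⟩
  · intro k l
    have h := (orthonormal_iff_ite.1 hb) k l
    rw [← inner_toLp _ _ (hm k) (hm l), Lp.toLp_coeFn, Lp.toLp_coeFn]
    exact h
  · intro i hi
    have hmem : A ⟨i, hi⟩ ∈ V := Submodule.subset_span ⟨_, rfl⟩
    have h1 := b.sum_repr' ⟨A ⟨i, hi⟩, hmem⟩
    have h2 : A ⟨i, hi⟩ = ∑ k, (∫ η, conj ((b k : V).1 η) * a i η ∂ν) • ((b k : V) : Lp ℂ 2 ν) := by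
      have h3 : ((∑ k, inner ℂ (b k) (⟨A ⟨i, hi⟩, hmem⟩ : V) • b k : V) : Lp ℂ 2 ν)
          = A ⟨i, hi⟩ := congrArg (Subtype.val) h1
      refine h3.symm.trans ?_
      simp only [Submodule.coe_sum, Submodule.coe_smul]
      refine Finset.sum_congr rfl fun k _ => ?_
      congr 1
      rw [Submodule.coe_inner, ← inner_toLp _ _ (hm k) (ha i), Lp.toLp_coeFn]
    have h4 := (ha i).coeFn_toLp
    have h5 : (ha i).toLp (a i) = A ⟨i, hi⟩ := rfl
    rw [h5, h2] at h4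
    have h6 := Lp.coeFn_finsetSum Finset.univ
      (fun k => (∫ η, conj ((b k : V).1 η) * a i η ∂ν) • ((b k : V) : Lp ℂ 2 ν))
    have h7 : ∀ᵐ ξ ∂ν, ∀ k, ((∫ η, conj ((b k : V).1 η) * a i η ∂ν) • ((b k : V) : Lp ℂ 2 ν) :
        Lp ℂ 2 ν) ξ = (∫ η, conj ((b k : V).1 η) * a i η ∂ν) * ((b k : V) : Lp ℂ 2 ν) ξ := by
      rw [ae_all_iff]
      intro k
      filter_upwards [Lp.coeFn_smul (∫ η, conj ((b k : V).1 η) * a i η ∂ν)
        ((b k : V) : Lp ℂ 2 ν)] with ξ h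
      rw [h]; rfl
    filter_upwards [h4, h6, h7] with ξ g4 g6 g7
    rw [← g4, g6, Finset.sum_apply]
    exact Finset.sum_congr rfl fun k _ => g7 k

/-- Pythagoras -/
theorem pyth {r : ℕ} (q : Fin r → X → ℂ) (hq : ∀ k, MemLp (q k) 2 ν)
    (hon : ∀ k l, ∫ ξ, conj (q k ξ) * q l ξ ∂ν = if k = l then 1 else 0)
    (m : X → ℂ) (hm : MemLp m 2 ν) :
    ∫ ξ, ‖m ξ - ∑ k, (∫ η, conj (q k η) * m η ∂ν) * q k ξ‖ ^ 2 ∂ν
      = (∫ ξ, ‖m ξ‖ ^ 2 ∂ν) - ∑ k, ‖∫ η, conj (q k η) * m η ∂ν‖ ^ 2 := by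
  have hQ : Orthonormal ℂ fun k => (hq k).toLp (q k) := by
    rw [orthonormal_iff_ite]
    intro k l
    rw [inner_toLp, hon]
  have nrm : ∀ (a : X → ℂ) (ha : MemLp a 2 ν), ‖ha.toLp a‖ ^ 2 = ∫ ξ, ‖a ξ‖ ^ 2 ∂ν := by
    intro a ha
    have h1 := inner_toLp a a ha ha
    rw [inner_self_eq_norm_sq_to_K] at h1
    have h2 : ∫ ξ, conj (a ξ) * a ξ ∂ν = ((∫ ξ, ‖a ξ‖ ^ 2 ∂ν : ℝ) : ℂ) := by
      rw [← integral_complex_ofReal]
      refine integral_congr_ae (Eventually.of_forall fun ξ => ?_)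
      simp only
      rw [RCLike.conj_mul]; simp
    rw [h2] at h1
    have h3 := congrArg Complex.re h1
    simpa [← Complex.ofReal_pow] using h3
  set c : Fin r → ℂ := fun k => ∫ η, conj (q k η) * m η ∂ν with hc
  have hs : MemLp (fun ξ => ∑ k, c k * q k ξ) 2 ν :=
    memLp_finsetSum _ fun k _ => (hq k).const_mul _
  have hsl : hs.toLp _ = ∑ k, c k • (hq k).toLp (q k) := by
    apply Lp.ext
    have h6 := Lp.coeFn_finsetSum Finset.univ (fun k => c k • (hq k).toLp (q k))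
    have h7 : ∀ᵐ ξ ∂ν, ∀ k, (c k • (hq k).toLp (q k) : Lp ℂ 2 ν) ξ = c k * q k ξ := by
      rw [ae_all_iff]
      intro k
      filter_upwards [Lp.coeFn_smul (c k) ((hq k).toLp (q k)), (hq k).coeFn_toLp] with ξ h h'
      rw [h, Pi.smul_apply, h']; rfl
    filter_upwards [hs.coeFn_toLp, h6, h7] with ξ g4 g6 g7
    rw [g4, g6, Finset.sum_apply]
    exact Finset.sum_congr rfl fun k _ => (g7 k).symm
  have key := nrm _ (hm.sub hs)
  simp only [Pi.sub_apply] at key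
  rw [← key, ← nrm _ hm, MemLp.toLp_sub hm hs, hsl, @norm_sub_sq ℂ]
  have i1 : inner ℂ (hm.toLp m) (∑ k, c k • (hq k).toLp (q k)) = ∑ k, ((‖c k‖ ^ 2 : ℝ) : ℂ) := by
    rw [inner_sum]
    refine Finset.sum_congr rfl fun k _ => ?_
    rw [inner_smul_right, ← inner_conj_symm, inner_toLp]
    change c k * conj (c k) = _
    rw [RCLike.mul_conj]; simp
  have i2 : ‖∑ k, c k • (hq k).toLp (q k)‖ ^ 2 = ∑ k, ‖c k‖ ^ 2 := by
    have h1 := hQ.inner_sum c c Finset.univ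
    rw [inner_self_eq_norm_sq_to_K] at h1
    have h2 : ∑ k, conj (c k) * c k = ((∑ k, ‖c k‖ ^ 2 : ℝ) : ℂ) := by
      push_cast
      refine Finset.sum_congr rfl fun k _ => ?_
      rw [RCLike.conj_mul]; simp
    rw [h2] at h1
    have h3 := congrArg Complex.re h1
    simpa [← Complex.ofReal_pow] using h3
  rw [i1, i2]
  have : RCLike.re (∑ k, ((‖c k‖ ^ 2 : ℝ) : ℂ)) = ∑ k, ‖c k‖ ^ 2 := by
    rw [← Complex.ofReal_sum]
    exact Complex.ofReal_re _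
  rw [this]; ring

end Pool.Agent.PN
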