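import Pool.Agent.PN.CH1

set_option autoImplicit false

open MeasureTheory Filter Topology Set
open Pool.Agent.H51.Neumann
open scoped RealInnerProductSpace ContDiff ComplexConjugate

namespace Pool.Agent.PN

variable {n : ℕ} {Ω : Set (E n)} {ν : Measure (E n)}

/-- superposition of plane waves -/
noncomputable def uq (ν : Measure (E n)) (q : E n → ℂ) (x : E n) : ℂ := ∫ ξ, pw ξ x * q ξ ∂ν

/-- Fourier transform of `F 1_Ω` -/
noncomputable def AF (Ω : Set (E n)) (F : E n → ℂ) (ξ : E n) : ℂ := ∫ x in Ω, pw ξ x * F x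

theorem fub_int [SFinite ν] {q : E n → ℂ} (hq : Integrable q ν) {F : E n → ℂ}
    (hF : Integrable F (volume.restrict Ω)) :
    Integrable (fun p : E n × E n => pw p.2 p.1 * q p.2 * F p.1)
      ((volume.restrict Ω).prod ν) := by
  have h1 : Integrable (fun p : E n × E n => F p.1 * q p.2) ((volume.restrict Ω).prod ν) :=
    hF.mul_prod hq
  have h2 := h1.mul_bdd (c := 1) (g := fun p : E n × E n => pw p.2 p.1)
    ((pw_continuous.comp continuous_swap).aestronglyMeasurable)
    (Eventually.of_forall fun p => (norm_pw _ _).le)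
  refine h2.congr (Eventually.of_forall fun p => ?_)
  simp only; ring

theorem uq_swap [SFinite ν] {q : E n → ℂ} (hq : Integrable q ν) {F : E n → ℂ}
    (hF : Integrable F (volume.restrict Ω)) :
    ∫ x in Ω, uq ν q x * F x = ∫ ξ, q ξ * AF Ω F ξ ∂ν := by
  have h := integral_integral_swap (f := fun x ξ => pw ξ x * q ξ * F x) (fub_int hq hF)
  have e1 : ∀ x, uq ν q x * F x = ∫ ξ, pw ξ x * q ξ * F x ∂ν := by
    intro x; rw [uq, integral_mul_const]
  have e2 : ∀ ξ, q ξ * AF Ω F ξ = ∫ x in Ω, pw ξ x * q ξ * F x := by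
    intro ξ
    rw [AF, ← integral_const_mul]
    refine integral_congr_ae (Eventually.of_forall fun x => ?_)
    simp only; ring
  simp only [e1, e2]
  exact h

theorem uq_bdd (q : E n → ℂ) (x : E n) : ‖uq ν q x‖ ≤ ∫ ξ, ‖q ξ‖ ∂ν := by
  refine (norm_integral_le_integral_norm _).trans (le_of_eq ?_)
  simp only [norm_mul, norm_pw, one_mul]

theorem uq_continuous {q : E n → ℂ} (hq : Integrable q ν) : Continuous (uq ν q) := by
  refine continuous_of_dominated (bound := fun ξ => ‖q ξ‖) ?_ ?_ hq.norm ?_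
  · intro x
    exact ((pw_continuous.comp (Continuous.prodMk continuous_id
      continuous_const)).aestronglyMeasurable).mul hq.1
  · intro x
    exact Eventually.of_forall fun ξ => by rw [norm_mul, norm_pw, one_mul]
  · exact Eventually.of_forall fun ξ => (pw_continuous.comp (Continuous.prodMk continuous_const
      continuous_id)).mul continuous_const

theorem uq_memLp (hfin : volume Ω ≠ ⊤) {q : E n → ℂ} (hq : Integrable q ν) :
    MemLp (uq ν q) 2 (volume.restrict Ω) := by
  have : IsFiniteMeasure (volume.restrict Ω) := ⟨by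
    rw [Measure.restrict_apply_univ]; exact lt_top_iff_ne_top.2 hfin⟩
  exact MemLp.of_bound (uq_continuous hq).aestronglyMeasurable _
    (Eventually.of_forall fun x => uq_bdd q x)

/-- multiplication by `i ξ_l` -/
noncomputable def dl (q : E n → ℂ) (l : Fin n) (ξ : E n) : ℂ := Complex.I * (ξ l : ℂ) * q ξ

theorem dl_integrable {R : ℝ} (hν : ∀ᵐ ξ ∂ν, ‖ξ‖ ≤ R) {q : E n → ℂ} (hq : Integrable q ν)
    (l : Fin n) : Integrable (dl q l) ν := by
  have h := hq.bdd_mul (c := R) (f := fun ξ : E n => Complex.I * (ξ l : ℂ))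
    (Continuous.aestronglyMeasurable (by fun_prop)) (by
      filter_upwards [hν] with ξ hξ
      rw [norm_mul, Complex.norm_I, one_mul, Complex.norm_real]
      exact (PiLp.norm_apply_le ξ l).trans hξ)
  exact h

theorem CH1.super [SFinite ν] (hΩ : MeasurableSet Ω) (hfin : volume Ω ≠ ⊤) {R : ℝ}
    (hν : ∀ᵐ ξ ∂ν, ‖ξ‖ ≤ R) {q : E n → ℂ} (hq : Integrable q ν) :
    CH1 Ω (uq ν q) (fun l => uq ν (dl q l)) := by
  have : IsFiniteMeasure (volume.restrict Ω) := ⟨by
    rw [Measure.restrict_apply_univ]; exact lt_top_iff_ne_top.2 hfin⟩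
  refine ⟨uq_memLp hfin hq, fun l => uq_memLp hfin (dl_integrable hν hq l), ?_⟩
  intro φ hφ hcs hsub v
  have h1 : MemLp (fun _ : E n => (1 : ℂ)) 2 (volume.restrict Ω) := memLp_const 1
  have i1 : Integrable (fun x => (fderiv ℝ φ x v : ℂ)) (volume.restrict Ω) := by
    simpa using (int_mul_test h1 φ hφ hcs v).1
  have i2 : Integrable (fun x => (φ x : ℂ)) (volume.restrict Ω) := by
    simpa using (int_mul_test h1 φ hφ hcs v).2
  rw [uq_swap hq i1]
  have e1 : ∀ ξ, AF Ω (fun x => (fderiv ℝ φ x v : ℂ)) ξ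
      = - ∑ l, (v l : ℂ) * (Complex.I * (ξ l : ℂ)) * AF Ω (fun x => (φ x : ℂ)) ξ := by
    intro ξ
    have := (CH1.pw hΩ hfin ξ).weak φ hφ hcs hsub v
    rw [AF, this]
    congr 1
    rw [AF, ← Finset.sum_mul, ← integral_const_mul]
    refine integral_congr_ae (Eventually.of_forall fun x => ?_)
    simp only [Finset.sum_mul]
    refine Finset.sum_congr rfl fun l _ => ?_
    ring
  have e2 : ∫ x in Ω, (∑ l, (v l : ℂ) * uq ν (dl q l) x) * (φ x : ℂ)
      = ∑ l, (v l : ℂ) * ∫ ξ, dl q l ξ * AF Ω (fun x => (φ x : ℂ)) ξ ∂ν := by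
    have : ∀ x, (∑ l, (v l : ℂ) * uq ν (dl q l) x) * (φ x : ℂ)
        = ∑ l, (v l : ℂ) * (uq ν (dl q l) x * (φ x : ℂ)) := by
      intro x
      rw [Finset.sum_mul]
      exact Finset.sum_congr rfl fun l _ => by ring
    simp only [this]
    rw [integral_finsetSum _ fun l _ => ?_]
    · refine Finset.sum_congr rfl fun l _ => ?_
      rw [integral_const_mul, uq_swap (dl_integrable hν hq l) i2]
    · exact ((int_mul_test (uq_memLp hfin (dl_integrable hν hq l)) φ hφ hcs v).2).const_mul _
  rw [e2]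
  simp only [e1]
  have hA : Continuous (AF Ω (fun x => (φ x : ℂ))) := by
    refine continuous_of_dominated (bound := fun x => ‖(φ x : ℂ)‖) ?_ ?_ i2.norm ?_
    · intro ξ
      exact ((pw_continuous.comp (Continuous.prodMk continuous_const
        continuous_id)).aestronglyMeasurable).mul i2.1
    · intro ξ
      exact Eventually.of_forall fun x => by rw [norm_mul, norm_pw, one_mul]
    · exact Eventually.of_forall fun x => (pw_continuous.comp (Continuous.prodMk continuous_id
        continuous_const)).mul continuous_const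
  have hAb : ∀ ξ, ‖AF Ω (fun x => (φ x : ℂ)) ξ‖ ≤ ∫ x in Ω, ‖(φ x : ℂ)‖ := by
    intro ξ
    refine (norm_integral_le_integral_norm _).trans (le_of_eq ?_)
    simp only [norm_mul, norm_pw, one_mul]
  have e3 : ∀ ξ, q ξ * -∑ l, (v l : ℂ) * (Complex.I * (ξ l : ℂ)) * AF Ω (fun x => (φ x : ℂ)) ξ
      = -∑ l, (v l : ℂ) * (dl q l ξ * AF Ω (fun x => (φ x : ℂ)) ξ) := by
    intro ξ
    rw [mul_neg, Finset.mul_sum]
    congr 1
    refine Finset.sum_congr rfl fun l _ => ?_
    rw [dl]; ring
  simp only [e3]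
  rw [integral_neg, integral_finsetSum _ fun l _ => ?_]
  · congr 1
    exact Finset.sum_congr rfl fun l _ => integral_const_mul _ _
  · exact ((dl_integrable hν hq l).mul_bdd (c := ∫ x in Ω, ‖(φ x : ℂ)‖) hA.aestronglyMeasurable
      (Eventually.of_forall hAb)).const_mul _

end Pool.Agent.PN
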