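import Pool.Agent.PN.Triangle

set_option autoImplicit false

open MeasureTheory Filter Topology Set
open Pool.Agent.H51.Neumann
open scoped RealInnerProductSpace ContDiff ComplexConjugate ENNReal

namespace Pool.Agent.PN

variable {n : ℕ} {Ω : Set (E n)}

/-- one-dimensional kernel -/
noncomputable def FF (w : ℝ → ℝ) (μ b p q : ℝ) : ℝ :=
  w ((p - b) ^ 2 + q) * w ((p + b) ^ 2 + q) * (μ - p ^ 2 - q + b ^ 2) ^ 2

/-- integrand of `Θ` -/
noncomputable def TG (w : ℝ → ℝ) (μ : ℝ) (h m : E n) : ℝ :=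
  w (‖m - (1 / 2 : ℝ) • h‖ ^ 2) * w (‖m + (1 / 2 : ℝ) • h‖ ^ 2) * (μ - ‖m‖ ^ 2 + ‖h‖ ^ 2 / 4) ^ 2

/-- `Θ(h)` -/
noncomputable def Theta (w : ℝ → ℝ) (μ : ℝ) (h : E n) : ℝ≥0∞ :=
  ∫⁻ m : E n, ENNReal.ofReal (TG w μ h m)

theorem TG_meas {w : ℝ → ℝ} (hw : Measurable w) (μ : ℝ) :
    Measurable (fun p : E n × E n => TG w μ p.1 p.2) := by
  unfold TG
  refine Measurable.mul (Measurable.mul (hw.comp ?_) (hw.comp ?_)) ?_
  · exact Continuous.measurable (by fun_prop)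
  · exact Continuous.measurable (by fun_prop)
  · exact Continuous.measurable (by fun_prop)

theorem TG_meas' {w : ℝ → ℝ} (hw : Measurable w) (μ : ℝ) (h : E n) :
    Measurable (fun m : E n => ENNReal.ofReal (TG w μ h m)) := by
  unfold TG
  refine ENNReal.measurable_ofReal.comp (Measurable.mul (Measurable.mul (hw.comp ?_)
    (hw.comp ?_)) ?_)
  · exact Continuous.measurable (by fun_prop)
  · exact Continuous.measurable (by fun_prop)
  · exact Continuous.measurable (by fun_prop)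

/-- the weight measure -/
noncomputable def wm (n : ℕ) (w : ℝ → ℝ) : Measure (E n) :=
  volume.withDensity (fun ξ => ENNReal.ofReal (w (‖ξ‖ ^ 2)))

instance (w : ℝ → ℝ) : SFinite (wm n w) := by unfold wm; infer_instance

theorem stepA {w : ℝ → ℝ} (hw : Measurable w) (hw0 : ∀ q, 0 ≤ w q) (μ : ℝ)
    {f : E n → ℝ} (hf : Measurable f) (hf0 : ∀ h, 0 ≤ f h) :
    ∫⁻ p, ENNReal.ofReal ((μ - ⟪p.1, p.2⟫) ^ 2 * f (p.2 - p.1)) ∂((wm n w).prod (wm n w))
      = ∫⁻ h, ENNReal.ofReal (f h) * Theta w μ h := by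
  have hwm : Measurable (fun ξ : E n => ENNReal.ofReal (w (‖ξ‖ ^ 2))) :=
    ENNReal.measurable_ofReal.comp (hw.comp (Continuous.measurable (by fun_prop)))
  have hG : Measurable (fun p : E n × E n =>
      ENNReal.ofReal ((μ - ⟪p.1, p.2⟫) ^ 2 * f (p.2 - p.1))) := by
    refine ENNReal.measurable_ofReal.comp (Measurable.mul ?_ (hf.comp ?_))
    · exact Continuous.measurable (by fun_prop)
    · exact Continuous.measurable (by fun_prop)
  have hwm2 : Measurable (fun z : E n × E n => ENNReal.ofReal (w (‖z.1‖ ^ 2))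
    * ENNReal.ofReal (w (‖z.2‖ ^ 2))) := (hwm.comp measurable_fst).mul (hwm.comp measurable_snd)
  unfold wm
  rw [prod_withDensity hwm hwm, lintegral_withDensity_eq_lintegral_mul _ hwm2 hG]
  set A : E n × E n → ℝ≥0∞ := ((fun z : E n × E n => ENNReal.ofReal (w (‖z.1‖ ^ 2))
    * ENNReal.ofReal (w (‖z.2‖ ^ 2))) * fun p : E n × E n =>
      ENNReal.ofReal ((μ - ⟪p.1, p.2⟫) ^ 2 * f (p.2 - p.1))) with hA
  have hAm : Measurable A := hwm2.mul hG
  rw [lintegral_prod _ hAm.aemeasurable]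
  have e1 : ∀ ξ, ∫⁻ η, A (ξ, η) = ∫⁻ h, A (ξ, ξ + h) := fun ξ =>
    (lintegral_add_left_eq_self (fun η => A (ξ, η)) ξ).symm
  simp only [e1]
  have hAm2 : Measurable (Function.uncurry fun ξ h : E n => A (ξ, ξ + h)) :=
    hAm.comp (measurable_fst.prodMk (measurable_fst.add measurable_snd))
  rw [lintegral_lintegral_swap hAm2.aemeasurable]
  refine lintegral_congr fun h => ?_
  rw [← lintegral_sub_right_eq_self (fun ξ => A (ξ, ξ + h)) ((1 / 2 : ℝ) • h), Theta,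
    ← lintegral_const_mul]
  · refine lintegral_congr fun m => ?_
    have e2 : m - (1 / 2 : ℝ) • h + h = m + (1 / 2 : ℝ) • h := by
      have : h = (1 / 2 : ℝ) • h + (1 / 2 : ℝ) • h := by
        rw [← add_smul]; norm_num
      calc m - (1 / 2 : ℝ) • h + h = m - (1 / 2 : ℝ) • h + ((1 / 2 : ℝ) • h + (1 / 2 : ℝ) • h) := by
            rw [← this]
        _ = _ := by abel
    have e3 : ⟪m - (1 / 2 : ℝ) • h, m + (1 / 2 : ℝ) • h⟫ = ‖m‖ ^ 2 - ‖h‖ ^ 2 / 4 := by
      rw [inner_sub_left, inner_add_right, inner_add_right, real_inner_self_eq_norm_sq,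
        inner_smul_left, inner_smul_right, inner_smul_left, inner_smul_right,
        real_inner_self_eq_norm_sq, real_inner_comm h m]
      simp only [conj_trivial]; ring
    have e4 : m + (1 / 2 : ℝ) • h - (m - (1 / 2 : ℝ) • h) = h := by
      have : h = (1 / 2 : ℝ) • h + (1 / 2 : ℝ) • h := by
        rw [← add_smul]; norm_num
      calc m + (1 / 2 : ℝ) • h - (m - (1 / 2 : ℝ) • h) = (1 / 2 : ℝ) • h + (1 / 2 : ℝ) • h := by
            abel
        _ = h := this.symm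
    simp only [hA, Pi.mul_apply, e2, e3, e4]
    rw [← ENNReal.ofReal_mul (hw0 _), ← ENNReal.ofReal_mul (mul_nonneg (hw0 _) (hw0 _)),
      ← ENNReal.ofReal_mul (hf0 _), TG]
    congr 1; ring
  · exact TG_meas' hw μ h

theorem Theta_rot {w : ℝ → ℝ} (hw : Measurable w) (μ : ℝ) {h h' : E n} (hh : ‖h‖ = ‖h'‖) :
    Theta w μ h = Theta w μ h' := by
  obtain ⟨L, hLh⟩ : ∃ L : E n ≃ₗᵢ[ℝ] E n, L h = h' :=
    ⟨(ℝ ∙ (h - h'))ᗮ.reflection, Submodule.reflection_sub hh⟩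
  rw [Theta, Theta, ← L.measurePreserving.lintegral_comp (TG_meas' hw μ h')]
  refine lintegral_congr fun m => ?_
  congr 1
  rw [TG, TG, ← hLh, ← map_smul, ← map_sub, ← map_add, L.norm_map, L.norm_map, L.norm_map,
    L.norm_map]

theorem mp_cons (k : ℕ) : MeasurePreserving (fun a : ℝ × (Fin k → ℝ) =>
    (WithLp.toLp 2 (Fin.cons a.1 a.2 : Fin (k + 1) → ℝ) : E (k + 1))) volume volume := by
  have h1 := (volume_preserving_piFinSuccAbove (fun _ : Fin (k + 1) => ℝ) 0).symm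
  have h2 := (PiLp.volume_preserving_toLp (Fin (k + 1))).comp h1
  have e : (fun a : ℝ × (Fin k → ℝ) =>
    (WithLp.toLp 2 (Fin.cons a.1 a.2 : Fin (k + 1) → ℝ) : E (k + 1)))
    = (WithLp.toLp 2) ∘ ((MeasurableEquiv.piFinSuccAbove (fun _ : Fin (k + 1) => ℝ) 0).symm) := by
    funext a
    simp only [Function.comp]
    congr 1
    ext i
    refine Fin.cases ?_ (fun i => ?_) i
    · simp [MeasurableEquiv.piFinSuccAbove, Fin.insertNthEquiv]
    · simp [MeasurableEquiv.piFinSuccAbove, Fin.insertNthEquiv]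
  rw [e]
  exact h2

theorem TG_slice {k : ℕ} (w : ℝ → ℝ) (μ b p : ℝ) (y : Fin k → ℝ) :
    TG w μ (EuclideanSpace.single (0 : Fin (k + 1)) (2 * b))
      (WithLp.toLp 2 (Fin.cons p y : Fin (k + 1) → ℝ) : E (k + 1))
      = FF w μ b p (∑ i, y i ^ 2) := by
  have n0 : ‖(WithLp.toLp 2 (Fin.cons p y : Fin (k + 1) → ℝ) : E (k + 1))‖ ^ 2
      = p ^ 2 + ∑ i, y i ^ 2 := by
    rw [EuclideanSpace.norm_sq_eq, Fin.sum_univ_succ]
    simp
  have n1 : ‖(WithLp.toLp 2 (Fin.cons p y : Fin (k + 1) → ℝ) : E (k + 1))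
      - (1 / 2 : ℝ) • EuclideanSpace.single (0 : Fin (k + 1)) (2 * b)‖ ^ 2
      = (p - b) ^ 2 + ∑ i, y i ^ 2 := by
    rw [EuclideanSpace.norm_sq_eq, Fin.sum_univ_succ]
    simp
  have n2 : ‖(WithLp.toLp 2 (Fin.cons p y : Fin (k + 1) → ℝ) : E (k + 1))
      + (1 / 2 : ℝ) • EuclideanSpace.single (0 : Fin (k + 1)) (2 * b)‖ ^ 2
      = (p + b) ^ 2 + ∑ i, y i ^ 2 := by
    rw [EuclideanSpace.norm_sq_eq, Fin.sum_univ_succ]
    simp
  have n3 : ‖(EuclideanSpace.single (0 : Fin (k + 1)) (2 * b) : E (k + 1))‖ ^ 2 = 4 * b ^ 2 := by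
    rw [EuclideanSpace.norm_sq_eq, Fin.sum_univ_succ]
    simp only [Real.norm_eq_abs, sq_abs]
    simp; ring
  rw [TG, FF, n0, n1, n2, n3]
  ring

theorem slice {k : ℕ} {w : ℝ → ℝ} (hw : Measurable w) (μ b : ℝ) :
    Theta w μ (EuclideanSpace.single (0 : Fin (k + 1)) (2 * b))
      = ∫⁻ y : Fin k → ℝ, ∫⁻ p : ℝ, ENNReal.ofReal (FF w μ b p (∑ i, y i ^ 2)) := by
  have hm := TG_meas' hw μ (EuclideanSpace.single (0 : Fin (k + 1)) (2 * b))
  rw [Theta, ← (mp_cons k).lintegral_comp hm]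
  simp only [TG_slice]
  have hm2 : Measurable (fun a : ℝ × (Fin k → ℝ) =>
      ENNReal.ofReal (FF w μ b a.1 (∑ i, a.2 i ^ 2))) := by
    have h3 := hm.comp (mp_cons k).measurable
    have h4 : (fun a : ℝ × (Fin k → ℝ) => ENNReal.ofReal (FF w μ b a.1 (∑ i, a.2 i ^ 2)))
        = (fun m : E (k + 1) => ENNReal.ofReal (TG w μ
          (EuclideanSpace.single (0 : Fin (k + 1)) (2 * b)) m)) ∘ (fun a : ℝ × (Fin k → ℝ) =>
          (WithLp.toLp 2 (Fin.cons a.1 a.2 : Fin (k + 1) → ℝ) : E (k + 1))) := by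
      funext a
      simp only [Function.comp]
      rw [TG_slice]
    rw [h4]
    exact h3
  exact lintegral_prod_symm' _ hm2

theorem FF_meas {w : ℝ → ℝ} (hw : Measurable w) (μ b : ℝ) :
    Measurable (fun p : ℝ × ℝ => FF w μ b p.1 p.2) := by
  unfold FF
  refine Measurable.mul (Measurable.mul (hw.comp ?_) (hw.comp ?_)) ?_
  · exact Continuous.measurable (by fun_prop)
  · exact Continuous.measurable (by fun_prop)
  · exact Continuous.measurable (by fun_prop)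

/-- `2 e^{-a t²} - e^{-4 a t²}` -/
noncomputable def ZZ (a t : ℝ) : ℝ := 2 * Real.exp (-a * t ^ 2) - Real.exp (-(4 * a) * t ^ 2)

theorem ZZ_meas : Measurable (fun p : ℝ × ℝ => ZZ p.1 p.2) := by
  unfold ZZ
  exact Continuous.measurable (by fun_prop)

theorem ZZ_nonneg {a : ℝ} (ha : 0 ≤ a) (t : ℝ) : 0 ≤ ZZ a t := by
  have h1 : Real.exp (-(4 * a) * t ^ 2) ≤ Real.exp (-a * t ^ 2) := by
    apply Real.exp_le_exp.2
    have : 0 ≤ a * t ^ 2 := by positivity
    linarith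
  have h2 := Real.exp_pos (-a * t ^ 2)
  unfold ZZ; linarith

theorem hs_lintegral {k : ℕ} {Ω : Set (E (k + 1))} (hΩ : MeasurableSet Ω) (hfin : volume Ω ≠ ⊤)
    {w : ℝ → ℝ} (hw : Measurable w) (hw0 : ∀ q, 0 ≤ w q) (μ : ℝ) {a : ℝ → ℝ} (ha : Measurable a)
    (ha0 : ∀ q, 0 < a q) {κ : ℝ} (hκ : 0 ≤ κ)
    (H : ∀ q b, 0 ≤ q → 0 ≤ b → ∫⁻ p : ℝ, ENNReal.ofReal (FF w μ b p q)
      ≤ ENNReal.ofReal (κ * ZZ (a q) (2 * b)) * ∫⁻ p : ℝ, ENNReal.ofReal (FF w μ 0 p q)) :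
    ∫⁻ p, ENNReal.ofReal ((μ - ⟪p.1, p.2⟫) ^ 2 * ‖chi Ω (p.2 - p.1)‖ ^ 2)
        ∂((wm (k + 1) w).prod (wm (k + 1) w))
      ≤ ENNReal.ofReal (κ * ((2 * Real.pi) ^ (k + 1) * volume.real Ω)) *
        ∫⁻ ξ : E (k + 1), ENNReal.ofReal ((w (‖ξ‖ ^ 2)) ^ 2 * (μ - ‖ξ‖ ^ 2) ^ 2) := by
  have hchi : Measurable (fun h : E (k + 1) => ‖chi Ω h‖ ^ 2) :=
    (((chi_continuous hfin).norm).pow 2).measurable
  rw [stepA hw hw0 μ (f := fun h => ‖chi Ω h‖ ^ 2) hchi (fun h => by positivity)]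
  set S : (Fin k → ℝ) → ℝ := fun y => ∑ i, y i ^ 2 with hS
  have hSm : Measurable S := by
    apply Continuous.measurable
    rw [hS]; fun_prop
  have hS0 : ∀ y, 0 ≤ S y := fun y => Finset.sum_nonneg fun i _ => sq_nonneg _
  set J : (Fin k → ℝ) → ℝ≥0∞ := fun y => ∫⁻ p : ℝ, ENNReal.ofReal (FF w μ 0 p (S y)) with hJ
  have hJm : Measurable J := by
    rw [hJ]
    refine Measurable.lintegral_prod_right' (f := fun z : (Fin k → ℝ) × ℝ =>
      ENNReal.ofReal (FF w μ 0 z.2 (S z.1))) ?_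
    exact ENNReal.measurable_ofReal.comp ((FF_meas hw μ 0).comp
      (measurable_snd.prodMk (hSm.comp measurable_fst)))
  -- slices
  have h1 : ∀ h : E (k + 1), Theta w μ h
      ≤ ∫⁻ y, ENNReal.ofReal (κ * ZZ (a (S y)) ‖h‖) * J y := by
    intro h
    have e1 : Theta w μ h = Theta w μ (EuclideanSpace.single (0 : Fin (k + 1))
        (2 * (‖h‖ / 2))) := by
      refine Theta_rot hw μ ?_
      rw [PiLp.norm_single, Real.norm_eq_abs, abs_of_nonneg (by positivity)]; ring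
    rw [e1, slice hw]
    refine lintegral_mono fun y => ?_
    refine (H (S y) (‖h‖ / 2) (hS0 y) (by positivity)).trans (le_of_eq ?_)
    congr 3
    rw [mul_div_cancel₀]; norm_num
  have h2 : ∫⁻ h, ENNReal.ofReal (‖chi Ω h‖ ^ 2) * Theta w μ h
      ≤ ∫⁻ h, ∫⁻ y, ENNReal.ofReal (‖chi Ω h‖ ^ 2)
        * (ENNReal.ofReal (κ * ZZ (a (S y)) ‖h‖) * J y) := by
    refine lintegral_mono fun h => ?_
    rw [lintegral_const_mul]
    · exact mul_le_mul_right (h1 h) _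
    · refine Measurable.mul (ENNReal.measurable_ofReal.comp ?_) hJm
      exact measurable_const.mul (ZZ_meas.comp ((ha.comp hSm).prodMk measurable_const))
  refine h2.trans ?_
  have hsm : Measurable (Function.uncurry fun (h : E (k + 1)) (y : Fin k → ℝ) =>
      ENNReal.ofReal (‖chi Ω h‖ ^ 2) * (ENNReal.ofReal (κ * ZZ (a (S y)) ‖h‖) * J y)) := by
    refine Measurable.mul (ENNReal.measurable_ofReal.comp (hchi.comp measurable_fst))
      (Measurable.mul (ENNReal.measurable_ofReal.comp ?_) (hJm.comp measurable_snd))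
    refine measurable_const.mul (ZZ_meas.comp (Measurable.prodMk ?_ ?_))
    · exact (ha.comp hSm).comp measurable_snd
    · exact measurable_norm.comp measurable_fst
  rw [lintegral_lintegral_swap hsm.aemeasurable]
  have h3 : ∀ y, ∫⁻ h : E (k + 1), ENNReal.ofReal (‖chi Ω h‖ ^ 2)
      * (ENNReal.ofReal (κ * ZZ (a (S y)) ‖h‖) * J y)
      ≤ ENNReal.ofReal (κ * ((2 * Real.pi) ^ (k + 1) * volume.real Ω)) * J y := by
    intro y
    have e1 : ∀ h : E (k + 1), ENNReal.ofReal (‖chi Ω h‖ ^ 2)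
      * (ENNReal.ofReal (κ * ZZ (a (S y)) ‖h‖) * J y)
      = ENNReal.ofReal (κ * (ZZ (a (S y)) ‖h‖ * ‖chi Ω h‖ ^ 2)) * J y := by
      intro h
      rw [← mul_assoc, ← ENNReal.ofReal_mul (by positivity)]
      congr 2; ring
    simp only [e1]
    rw [lintegral_mul_const]
    · refine mul_le_mul_left ?_ _
      obtain ⟨i1, t1⟩ := triangle hΩ hfin (ha0 (S y))
      have i2 : Integrable (fun h : E (k + 1) => κ * (ZZ (a (S y)) ‖h‖ * ‖chi Ω h‖ ^ 2)) := by
        refine Integrable.const_mul ?_ κ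
        exact i1
      rw [← ofReal_integral_eq_lintegral_ofReal i2 (Eventually.of_forall fun h => ?_)]
      · apply ENNReal.ofReal_le_ofReal
        rw [integral_const_mul]
        exact mul_le_mul_of_nonneg_left t1 hκ
      · exact mul_nonneg hκ (mul_nonneg (ZZ_nonneg (ha0 _).le _) (by positivity))
    · refine ENNReal.measurable_ofReal.comp (measurable_const.mul (Measurable.mul ?_ hchi))
      exact ZZ_meas.comp (measurable_const.prodMk measurable_norm)
  refine (lintegral_mono h3).trans (le_of_eq ?_)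
  rw [lintegral_const_mul _ hJm]
  congr 1
  have e2 := slice (k := k) hw μ 0
  rw [hJ]
  simp only [hS]
  rw [← e2, Theta]
  refine lintegral_congr fun m => ?_
  congr 1
  rw [TG]
  simp only [mul_zero]
  have : EuclideanSpace.single (0 : Fin (k + 1)) (0 : ℝ) = 0 := by
    ext i; simp
  rw [this]
  simp only [smul_zero, sub_zero, add_zero, norm_zero]
  ring

end Pool.Agent.PN
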