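import Pool.Agent.PN.Super
import Pool.Agent.PN.OrthoFn

set_option autoImplicit false

open MeasureTheory Filter Topology Set
open Pool.Agent.H51.Neumann
open scoped RealInnerProductSpace ContDiff ComplexConjugate

namespace Pool.Agent.PN

variable {n : ℕ} {Ω : Set (E n)} {ν : Measure (E n)}

theorem AF_continuous {F : E n → ℂ} (hF : Integrable F (volume.restrict Ω)) :
    Continuous (AF Ω F) := by
  refine continuous_of_dominated (bound := fun x => ‖F x‖) ?_ ?_ hF.norm ?_
  · intro ξ
    exact ((pw_continuous.comp (Continuous.prodMk continuous_const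
      continuous_id)).aestronglyMeasurable).mul hF.1
  · intro ξ
    exact Eventually.of_forall fun x => by rw [norm_mul, norm_pw, one_mul]
  · exact Eventually.of_forall fun x => (pw_continuous.comp (Continuous.prodMk continuous_id
      continuous_const)).mul continuous_const

theorem AF_bdd (F : E n → ℂ) (ξ : E n) : ‖AF Ω F ξ‖ ≤ ∫ x in Ω, ‖F x‖ := by
  refine (norm_integral_le_integral_norm _).trans (le_of_eq ?_)
  simp only [norm_mul, norm_pw, one_mul]

theorem memLp_mul_prod {X Y : Type*} [MeasurableSpace X] [MeasurableSpace Y] {α : Measure X}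
    {β : Measure Y} [SFinite α] [SFinite β]
    {f : X → ℂ} {h : Y → ℂ} (hf : MemLp f 2 α) (hh : MemLp h 2 β) :
    MemLp (fun p : X × Y => f p.1 * h p.2) 2 (α.prod β) := by
  have hm : AEStronglyMeasurable (fun p : X × Y => f p.1 * h p.2) (α.prod β) :=
    hf.1.comp_fst.mul hh.1.comp_snd
  rw [memLp_two_iff_integrable_sq_norm hm]
  have h1 := (memLp_two_iff_integrable_sq_norm hf.1).1 hf
  have h2 := (memLp_two_iff_integrable_sq_norm hh.1).1 hh
  refine (h1.mul_prod h2).congr (Eventually.of_forall fun p => ?_)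
  simp only [norm_mul, mul_pow]

section

variable {μ : ℕ → ℝ} {u : ℕ → E n → ℝ} {g : ℕ → E n → E n}

theorem trace_le [IsFiniteMeasure ν] (hΩ : MeasurableSet Ω) (hfin : volume Ω ≠ ⊤) {R : ℝ}
    (hν : ∀ᵐ ξ ∂ν, ‖ξ‖ ≤ R) (N : NData Ω μ u g) (j : ℕ) :
    ∃ r : ℕ, r ≤ j ∧ ∃ q : Fin r → E n → ℂ, (∀ k, MemLp (q k) 2 ν) ∧
      (∀ k l, ∫ ξ, conj (q k ξ) * q l ξ ∂ν = if k = l then 1 else 0) ∧
      volume.real Ω * ∫ ξ, (μ j - ‖ξ‖ ^ 2) ∂ν ≤
        ∑ k, (μ j * (∫ x in Ω, ‖uq ν (q k) x‖ ^ 2)
          - ∑ l, ∫ x in Ω, ‖uq ν (dl (q k) l) x‖ ^ 2) := by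
  have hfm : IsFiniteMeasure (volume.restrict Ω) := ⟨by
    rw [Measure.restrict_apply_univ]; exact lt_top_iff_ne_top.2 hfin⟩
  have hui : ∀ i, Integrable (fun x => (u i x : ℂ)) (volume.restrict Ω) := fun i =>
    ((N.h1 i).memLp.ofReal (K := ℂ)).integrable (by norm_num)
  set a : ℕ → E n → ℂ := fun i ξ => conj (AF Ω (fun x => (u i x : ℂ)) ξ) with ha
  have ham : ∀ i, MemLp (a i) 2 ν := by
    intro i
    refine MemLp.of_bound (C := ∫ x in Ω, ‖(u i x : ℂ)‖) ?_ (Eventually.of_forall fun ξ => ?_)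
    · exact (Complex.continuous_conj.comp (AF_continuous (hui i))).aestronglyMeasurable
    · rw [ha]; simp only [RCLike.norm_conj]; exact AF_bdd _ ξ
  obtain ⟨r, hr, q, hq, hon, hrep⟩ := exists_on j a ham
  refine ⟨r, hr, q, hq, hon, ?_⟩
  have hqi : ∀ k, Integrable (q k) ν := fun k => (hq k).integrable (by norm_num)
  have hdi : ∀ k l, Integrable (dl (q k) l) ν := fun k l => dl_integrable hν (hqi k) l
  have hum : ∀ k, MemLp (uq ν (q k)) 2 (volume.restrict Ω) := fun k => uq_memLp hfin (hqi k)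
  have hdm : ∀ k l, MemLp (uq ν (dl (q k) l)) 2 (volume.restrict Ω) := fun k l =>
    uq_memLp hfin (hdi k l)
  set F : E n → E n → ℂ := fun ξ x => pw ξ x + ∑ k, (-conj (q k ξ)) * uq ν (q k) x with hF
  set G : Fin n → E n → E n → ℂ := fun l ξ x => Complex.I * (ξ l : ℂ) * pw ξ x
    + ∑ k, (-conj (q k ξ)) * uq ν (dl (q k) l) x with hG
  have hCH : ∀ ξ, CH1 Ω (F ξ) (fun l => G l ξ) := by
    intro ξ
    exact (CH1.pw hΩ hfin ξ).add (CH1.sum Finset.univ fun k _ =>
      (CH1.super hΩ hfin hν (hqi k)).smul (-conj (q k ξ)))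
  -- orthogonality
  have horth : ∀ᵐ ξ ∂ν, ∀ i < j, ∫ x in Ω, (u i x : ℂ) * F ξ x = 0 := by
    have h1 : ∀ i, ∀ᵐ ξ ∂ν, i < j → ∫ x in Ω, (u i x : ℂ) * F ξ x = 0 := by
      intro i
      by_cases hi : i < j
      swap
      · exact Eventually.of_forall fun ξ h => absurd h hi
      filter_upwards [hrep i hi] with ξ hξ _
      have e1 : ∀ k, ∫ x in Ω, (u i x : ℂ) * uq ν (q k) x = conj (∫ η, conj (q k η) * a i η ∂ν) := by
        intro k
        rw [← integral_conj]
        have := uq_swap (Ω := Ω) (hqi k) (hui i)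
        simp only [mul_comm] at this ⊢
        rw [this]
        refine integral_congr_ae (Eventually.of_forall fun η => ?_)
        simp only [ha, map_mul, Complex.conj_conj]
      have e2 : ∫ x in Ω, (u i x : ℂ) * F ξ x = AF Ω (fun x => (u i x : ℂ)) ξ
          + ∑ k, (-conj (q k ξ)) * ∫ x in Ω, (u i x : ℂ) * uq ν (q k) x := by
        have i0 : Integrable (fun x => pw ξ x * (u i x : ℂ)) (volume.restrict Ω) :=
          (hui i).bdd_mul (c := 1) (pw_continuous.comp (Continuous.prodMk continuous_const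
            continuous_id)).aestronglyMeasurable (Eventually.of_forall fun x => (norm_pw _ _).le)
        have ik : ∀ k, Integrable (fun x => (u i x : ℂ) * uq ν (q k) x) (volume.restrict Ω) :=
          fun k => ((N.h1 i).memLp.ofReal (K := ℂ)).integrable_mul (hum k)
        have : ∀ x, (u i x : ℂ) * F ξ x = pw ξ x * (u i x : ℂ)
            + ∑ k, (-conj (q k ξ)) * ((u i x : ℂ) * uq ν (q k) x) := by
          intro x
          rw [hF]; simp only
          rw [mul_add, Finset.mul_sum]
          congr 1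
          · ring
          · exact Finset.sum_congr rfl fun k _ => by ring
        simp only [this]
        rw [integral_add i0 (integrable_finsetSum _ fun k _ => (ik k).const_mul _),
          integral_finsetSum _ fun k _ => (ik k).const_mul _]
        congr 1
        exact Finset.sum_congr rfl fun k _ => integral_const_mul _ _
      rw [e2]
      have e3 : AF Ω (fun x => (u i x : ℂ)) ξ = conj (a i ξ) := by
        rw [ha]; simp
      rw [e3, hξ, map_sum, ← Finset.sum_add_distrib]
      refine Finset.sum_eq_zero fun k _ => ?_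
      rw [e1, map_mul]; ring
    have h2 := ae_all_iff.2 h1
    filter_upwards [h2] with ξ hξ i hi using hξ i hi
  -- energy
  have hen : ∀ᵐ ξ ∂ν, μ j * ∫ x in Ω, ‖F ξ x‖ ^ 2 ≤ ∫ x in Ω, ∑ l, ‖G l ξ x‖ ^ 2 := by
    filter_upwards [horth] with ξ hξ
    exact N.energyC (hCH ξ) j hξ
  -- joint integrability
  have hpwm : AEStronglyMeasurable (fun p : E n × E n => pw p.1 p.2)
      (ν.prod (volume.restrict Ω)) := pw_continuous.aestronglyMeasurable
  have hqc : ∀ k, MemLp (fun ξ => -conj (q k ξ)) 2 ν := by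
    intro k
    have := ((hq k).star).neg
    exact this
  have hFm : MemLp (fun p : E n × E n => F p.1 p.2) 2 (ν.prod (volume.restrict Ω)) := by
    refine MemLp.add ?_ (memLp_finsetSum _ fun k _ => memLp_mul_prod (hqc k) (hum k))
    exact MemLp.of_bound hpwm 1 (Eventually.of_forall fun p => (norm_pw _ _).le)
  have hGm : ∀ l, MemLp (fun p : E n × E n => G l p.1 p.2) 2 (ν.prod (volume.restrict Ω)) := by
    intro l
    refine MemLp.add ?_ (memLp_finsetSum _ fun k _ => memLp_mul_prod (hqc k) (hdm k l))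
    refine MemLp.of_bound (C := R) ?_ ?_
    · exact (Continuous.aestronglyMeasurable (by fun_prop)).mul hpwm
    · have h1 : ∀ᵐ p ∂(ν.prod (volume.restrict Ω)), ‖p.1‖ ≤ R :=
        Measure.quasiMeasurePreserving_fst.ae hν
      filter_upwards [h1] with p hp
      rw [norm_mul, norm_pw, mul_one, norm_mul, Complex.norm_I, one_mul, Complex.norm_real]
      exact (PiLp.norm_apply_le p.1 l).trans hp
  have hFi := (memLp_two_iff_integrable_sq_norm hFm.1).1 hFm
  have hGi := fun l => (memLp_two_iff_integrable_sq_norm (hGm l).1).1 (hGm l)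
  have hGs : Integrable (fun p : E n × E n => ∑ l, ‖G l p.1 p.2‖ ^ 2)
      (ν.prod (volume.restrict Ω)) := integrable_finsetSum _ fun l _ => hGi l
  have hint : μ j * ∫ ξ, (∫ x in Ω, ‖F ξ x‖ ^ 2) ∂ν
      ≤ ∫ ξ, (∫ x in Ω, ∑ l, ‖G l ξ x‖ ^ 2) ∂ν := by
    rw [← integral_const_mul]
    exact integral_mono_ae (hFi.integral_prod_left.const_mul _) hGs.integral_prod_left hen
  rw [integral_integral_swap (f := fun ξ x => ‖F ξ x‖ ^ 2) hFi,
    integral_integral_swap (f := fun ξ x => ∑ l, ‖G l ξ x‖ ^ 2) hGs] at hint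
  -- Pythagoras
  have pF : ∀ x, ∫ ξ, ‖F ξ x‖ ^ 2 ∂ν = ν.real univ - ∑ k, ‖uq ν (q k) x‖ ^ 2 := by
    intro x
    have hm : MemLp (fun ξ => conj (pw ξ x)) 2 ν := by
      refine MemLp.of_bound (C := 1) ?_ (Eventually.of_forall fun ξ => ?_)
      · exact (Complex.continuous_conj.comp (pw_continuous.comp (Continuous.prodMk continuous_id
          continuous_const))).aestronglyMeasurable
      · rw [RCLike.norm_conj, norm_pw]
    have h := pyth q hq hon _ hm
    have e1 : ∀ k, ∫ η, conj (q k η) * conj (pw η x) ∂ν = conj (uq ν (q k) x) := by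
      intro k
      rw [uq, ← integral_conj]
      refine integral_congr_ae (Eventually.of_forall fun η => ?_)
      simp only [map_mul]; ring
    simp only [e1, RCLike.norm_conj, norm_pw, one_pow] at h
    rw [integral_const, smul_eq_mul, mul_one] at h
    rw [← h]
    refine integral_congr_ae (Eventually.of_forall fun ξ => ?_)
    simp only
    rw [← RCLike.norm_conj (F ξ x), hF]
    simp only [map_add, map_sum, map_mul, map_neg, Complex.conj_conj]
    congr 2
    rw [sub_eq_add_neg, ← Finset.sum_neg_distrib]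
    congr 1
    exact Finset.sum_congr rfl fun k _ => by ring
  have pG : ∀ l x, ∫ ξ, ‖G l ξ x‖ ^ 2 ∂ν = (∫ ξ, (ξ l) ^ 2 ∂ν)
      - ∑ k, ‖uq ν (dl (q k) l) x‖ ^ 2 := by
    intro l x
    have hm : MemLp (fun ξ => conj (Complex.I * (ξ l : ℂ) * pw ξ x)) 2 ν := by
      refine MemLp.of_bound (C := R) ?_ ?_
      · refine Continuous.aestronglyMeasurable (Complex.continuous_conj.comp (Continuous.mul
          (by fun_prop) (pw_continuous.comp (Continuous.prodMk continuous_id continuous_const))))
      · filter_upwards [hν] with ξ hξ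
        rw [RCLike.norm_conj, norm_mul, norm_pw, mul_one, norm_mul, Complex.norm_I, one_mul,
          Complex.norm_real]
        exact (PiLp.norm_apply_le ξ l).trans hξ
    have h := pyth q hq hon _ hm
    have e1 : ∀ k, ∫ η, conj (q k η) * conj (Complex.I * (η l : ℂ) * pw η x) ∂ν
        = conj (uq ν (dl (q k) l) x) := by
      intro k
      rw [uq, ← integral_conj]
      refine integral_congr_ae (Eventually.of_forall fun η => ?_)
      simp only [map_mul, dl]; ring
    have e2 : ∀ ξ : E n, ‖Complex.I * (ξ l : ℂ) * pw ξ x‖ ^ 2 = (ξ l) ^ 2 := by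
      intro ξ
      rw [norm_mul, norm_pw, mul_one, norm_mul, Complex.norm_I, one_mul, Complex.norm_real,
        Real.norm_eq_abs, sq_abs]
    simp only [e1, RCLike.norm_conj, e2] at h
    rw [← h]
    refine integral_congr_ae (Eventually.of_forall fun ξ => ?_)
    simp only
    rw [← RCLike.norm_conj (G l ξ x), hG]
    simp only [map_add, map_sum, map_mul, map_neg, Complex.conj_conj]
    congr 2
    rw [sub_eq_add_neg, ← Finset.sum_neg_distrib]
    congr 1
    exact Finset.sum_congr rfl fun k _ => by ring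
  have hVr : (volume.restrict Ω).real univ = volume.real Ω := by
    simp only [Measure.real, Measure.restrict_apply_univ]
  have hqs : ∀ k, Integrable (fun x => ‖uq ν (q k) x‖ ^ 2) (volume.restrict Ω) := fun k =>
    (memLp_two_iff_integrable_sq_norm (hum k).1).1 (hum k)
  have hds : ∀ k l, Integrable (fun x => ‖uq ν (dl (q k) l) x‖ ^ 2) (volume.restrict Ω) :=
    fun k l => (memLp_two_iff_integrable_sq_norm (hdm k l).1).1 (hdm k l)
  have lhs : ∫ x in Ω, (∫ ξ, ‖F ξ x‖ ^ 2 ∂ν)
      = volume.real Ω * ν.real univ - ∑ k, ∫ x in Ω, ‖uq ν (q k) x‖ ^ 2 := by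
    simp only [pF]
    rw [integral_sub (integrable_const _) (integrable_finsetSum _ fun k _ => hqs k),
      integral_finsetSum _ fun k _ => hqs k, integral_const, smul_eq_mul, hVr]
  have hGx : ∀ x, ∀ l, Integrable (fun ξ => ‖G l ξ x‖ ^ 2) ν := by
    intro x l
    have hm : MemLp (fun ξ => G l ξ x) 2 ν := by
      rw [hG]
      refine MemLp.add ?_ (memLp_finsetSum _ fun k _ => (hqc k).mul_const _)
      refine MemLp.of_bound (C := R) ?_ ?_
      · refine Continuous.aestronglyMeasurable (Continuous.mul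
          (by fun_prop) (pw_continuous.comp (Continuous.prodMk continuous_id continuous_const)))
      · filter_upwards [hν] with ξ hξ
        rw [norm_mul, norm_pw, mul_one, norm_mul, Complex.norm_I, one_mul,
          Complex.norm_real]
        exact (PiLp.norm_apply_le ξ l).trans hξ
    exact (memLp_two_iff_integrable_sq_norm hm.1).1 hm
  have hxl : ∀ l : Fin n, Integrable (fun ξ : E n => (ξ l) ^ 2) ν := by
    intro l
    refine Integrable.of_bound (C := R ^ 2) (Continuous.aestronglyMeasurable (by fun_prop)) ?_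
    filter_upwards [hν] with ξ hξ
    have h1 : |ξ l| ≤ R := by
      have := (PiLp.norm_apply_le ξ l).trans hξ
      rwa [Real.norm_eq_abs] at this
    rw [Real.norm_eq_abs, abs_of_nonneg (sq_nonneg _), ← sq_abs]
    exact pow_le_pow_left₀ (abs_nonneg _) h1 2
  have rhs : ∫ x in Ω, (∫ ξ, ∑ l, ‖G l ξ x‖ ^ 2 ∂ν)
      = volume.real Ω * (∫ ξ, ‖ξ‖ ^ 2 ∂ν) - ∑ k, ∑ l, ∫ x in Ω, ‖uq ν (dl (q k) l) x‖ ^ 2 := by
    have h1 : ∀ x, ∫ ξ, ∑ l, ‖G l ξ x‖ ^ 2 ∂ν = (∫ ξ, ‖ξ‖ ^ 2 ∂ν)
        - ∑ l, ∑ k, ‖uq ν (dl (q k) l) x‖ ^ 2 := by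
      intro x
      rw [integral_finsetSum _ fun l _ => hGx x l]
      simp only [pG]
      rw [Finset.sum_sub_distrib]
      congr 1
      rw [← integral_finsetSum _ fun l _ => hxl l]
      refine integral_congr_ae (Eventually.of_forall fun ξ => ?_)
      simp only [EuclideanSpace.norm_sq_eq, Real.norm_eq_abs, sq_abs]
    simp only [h1]
    rw [integral_sub (integrable_const _) (integrable_finsetSum _ fun l _ =>
      integrable_finsetSum _ fun k _ => hds k l), integral_const, smul_eq_mul, hVr,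
      integral_finsetSum _ fun l _ => integrable_finsetSum _ fun k _ => hds k l,
      Finset.sum_comm]
    congr 1
    refine Finset.sum_congr rfl fun l _ => ?_
    exact integral_finsetSum _ fun k _ => hds k l
  rw [lhs, rhs] at hint
  have hn2 : Integrable (fun ξ : E n => ‖ξ‖ ^ 2) ν := by
    refine Integrable.of_bound (C := R ^ 2) (Continuous.aestronglyMeasurable (by fun_prop)) ?_
    filter_upwards [hν] with ξ hξ
    rw [Real.norm_eq_abs, abs_of_nonneg (sq_nonneg _)]
    exact pow_le_pow_left₀ (norm_nonneg _) hξ 2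
  rw [integral_sub (integrable_const _) hn2, integral_const, smul_eq_mul,
    Finset.sum_sub_distrib, ← Finset.mul_sum]
  nlinarith [hint]

end

end Pool.Agent.PN
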