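import Pool.Agent.PN.Kernel
import Pool.Agent.H51.Neumann.HighDim

set_option autoImplicit false

open MeasureTheory Filter Topology Set
open Pool.Agent.H51.Neumann
open scoped RealInnerProductSpace ContDiff ComplexConjugate

namespace Pool.Agent.PN

variable {n : ℕ} {Ω : Set (E n)}

/-- the Gaussian `∫ e^{-a|h|²} cos⟨h,z⟩ dh` -/
noncomputable def GG (a : ℝ) (z : E n) : ℝ :=
  (Real.pi / a) ^ ((n : ℝ) / 2) * Real.exp (-‖z‖ ^ 2 / (4 * a))

theorem GG_pos {a : ℝ} (ha : 0 < a) (z : E n) : 0 < GG a z := by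
  unfold GG; positivity

theorem GG_cont {a : ℝ} : Continuous (fun z : E n => GG a z) := by
  unfold GG; fun_prop

theorem integrable_GG {a : ℝ} (ha : 0 < a) : Integrable (fun z : E n => GG a z) := by
  have h := (integrable_gauss (n := n) (t := 1 / (4 * a)) (by positivity)).const_mul
    ((Real.pi / a) ^ ((n : ℝ) / 2))
  refine h.congr (Eventually.of_forall fun z => ?_)
  simp only [GG]
  congr 2; ring

theorem integral_GG {a : ℝ} (ha : 0 < a) : ∫ z : E n, GG a z = (2 * Real.pi) ^ n := by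
  have h1 : ∫ z : E n, GG a z
      = (Real.pi / a) ^ ((n : ℝ) / 2) * ∫ z : E n, Real.exp (-(1 / (4 * a)) * ‖z‖ ^ 2) := by
    rw [← integral_const_mul]
    refine integral_congr_ae (Eventually.of_forall fun z => ?_)
    simp only [GG]
    congr 2; ring
  rw [h1, integral_gauss (by positivity), ← Real.mul_rpow (by positivity) (by positivity)]
  have : Real.pi / a * (Real.pi / (1 / (4 * a))) = (2 * Real.pi) ^ (2 : ℝ) := by
    rw [show ((2 : ℝ)) = ((2 : ℕ) : ℝ) by norm_num, Real.rpow_natCast]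
    field_simp; push_cast; ring
  rw [this, ← Real.rpow_mul (by positivity)]
  have : (2 : ℝ) * (n / 2) = n := by ring
  rw [this, Real.rpow_natCast]

theorem GG_four {a : ℝ} (ha : 0 < a) (z : E n) :
    GG (4 * a) z = ((2 : ℝ) ^ n)⁻¹ * GG a ((1 / 2 : ℝ) • z) := by
  unfold GG
  rw [norm_smul]
  have h1 : (Real.pi / (4 * a)) ^ ((n : ℝ) / 2)
      = ((2 : ℝ) ^ n)⁻¹ * (Real.pi / a) ^ ((n : ℝ) / 2) := by
    have : Real.pi / (4 * a) = (Real.pi / a) / 4 := by field_simp
    rw [this, Real.div_rpow (by positivity) (by norm_num), div_eq_inv_mul]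
    congr 2
    have : (4 : ℝ) = (2 : ℝ) ^ (2 : ℝ) := by
      rw [show ((2 : ℝ) ^ (2 : ℝ)) = (2 : ℝ) ^ ((2 : ℕ) : ℝ) by norm_num, Real.rpow_natCast]
      norm_num
    rw [this, ← Real.rpow_mul (by norm_num)]
    have : (2 : ℝ) * (n / 2) = n := by ring
    rw [this, Real.rpow_natCast]
  rw [h1, mul_assoc]
  congr 3
  rw [Real.norm_eq_abs, abs_of_pos (by norm_num : (0 : ℝ) < 1 / 2)]
  field_simp; try ring

theorem chi_re (hfin : volume Ω ≠ ⊤) (h : E n) : (chi Ω h).re = ∫ x in Ω, Real.cos ⟪h, x⟫ := by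
  have : IsFiniteMeasure (volume.restrict Ω) := ⟨by
    rw [Measure.restrict_apply_univ]; exact lt_top_iff_ne_top.2 hfin⟩
  have hi : Integrable (fun x => pw h x * 1) (volume.restrict Ω) := by
    refine Integrable.of_bound (C := 1) ?_ (Eventually.of_forall fun x => by
      rw [mul_one, norm_pw])
    simp only [mul_one]
    exact (pw_continuous.comp (Continuous.prodMk continuous_const
        continuous_id)).aestronglyMeasurable
  have h1 := Complex.reCLM.integral_comp_comm hi
  simp only [Complex.reCLM_apply, mul_one, pw_re] at h1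
  rw [chi, AF]; simp only [mul_one]
  exact h1.symm

theorem chi_im (hfin : volume Ω ≠ ⊤) (h : E n) : (chi Ω h).im = ∫ x in Ω, Real.sin ⟪h, x⟫ := by
  have : IsFiniteMeasure (volume.restrict Ω) := ⟨by
    rw [Measure.restrict_apply_univ]; exact lt_top_iff_ne_top.2 hfin⟩
  have hi : Integrable (fun x => pw h x * 1) (volume.restrict Ω) := by
    refine Integrable.of_bound (C := 1) ?_ (Eventually.of_forall fun x => by
      rw [mul_one, norm_pw])
    simp only [mul_one]
    exact (pw_continuous.comp (Continuous.prodMk continuous_const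
        continuous_id)).aestronglyMeasurable
  have h1 := Complex.imCLM.integral_comp_comm hi
  simp only [Complex.imCLM_apply, mul_one, pw_im] at h1
  rw [chi, AF]; simp only [mul_one]
  exact h1.symm

theorem int_cos_prod (hfin : volume Ω ≠ ⊤) (h : E n) :
    Integrable (fun p : E n × E n => Real.cos ⟪h, p.1 - p.2⟫)
      ((volume.restrict Ω).prod (volume.restrict Ω)) := by
  have : IsFiniteMeasure (volume.restrict Ω) := ⟨by
    rw [Measure.restrict_apply_univ]; exact lt_top_iff_ne_top.2 hfin⟩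
  refine Integrable.of_bound (C := 1) (Continuous.aestronglyMeasurable (by fun_prop))
    (Eventually.of_forall fun p => ?_)
  rw [Real.norm_eq_abs]; exact Real.abs_cos_le_one _

theorem chi_sq (hfin : volume Ω ≠ ⊤) (h : E n) :
    ‖chi Ω h‖ ^ 2 = ∫ p, Real.cos ⟪h, p.1 - p.2⟫ ∂((volume.restrict Ω).prod
      (volume.restrict Ω)) := by
  have hfm : IsFiniteMeasure (volume.restrict Ω) := ⟨by
    rw [Measure.restrict_apply_univ]; exact lt_top_iff_ne_top.2 hfin⟩
  rw [Complex.sq_norm, Complex.normSq_apply, chi_re hfin, chi_im hfin, ← sq, ← sq,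
    sq_integral_eq, sq_integral_eq]
  have ic : Integrable (fun x : E n => Real.cos ⟪h, x⟫) (volume.restrict Ω) :=
    Integrable.of_bound (C := 1) (Continuous.aestronglyMeasurable (by fun_prop))
      (Eventually.of_forall fun p => by rw [Real.norm_eq_abs]; exact Real.abs_cos_le_one _)
  have is : Integrable (fun x : E n => Real.sin ⟪h, x⟫) (volume.restrict Ω) :=
    Integrable.of_bound (C := 1) (Continuous.aestronglyMeasurable (by fun_prop))
      (Eventually.of_forall fun p => by rw [Real.norm_eq_abs]; exact Real.abs_sin_le_one _)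
  rw [← integral_add (ic.mul_prod ic) (is.mul_prod is)]
  refine integral_congr_ae (Eventually.of_forall fun p => ?_)
  simp only
  rw [inner_sub_right, Real.cos_sub]

theorem gauss_chi (hfin : volume Ω ≠ ⊤) {a : ℝ} (ha : 0 < a) :
    Integrable (fun h : E n => Real.exp (-a * ‖h‖ ^ 2) * ‖chi Ω h‖ ^ 2) ∧
    ∫ h : E n, Real.exp (-a * ‖h‖ ^ 2) * ‖chi Ω h‖ ^ 2
      = ∫ p, GG a (p.1 - p.2) ∂((volume.restrict Ω).prod (volume.restrict Ω)) := by
  have hfm : IsFiniteMeasure (volume.restrict Ω) := ⟨by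
    rw [Measure.restrict_apply_univ]; exact lt_top_iff_ne_top.2 hfin⟩
  set P := (volume.restrict Ω).prod (volume.restrict Ω) with hP
  have hJ : Integrable (fun q : E n × (E n × E n) =>
      Real.exp (-a * ‖q.1‖ ^ 2) * Real.cos ⟪q.1, q.2.1 - q.2.2⟫) (volume.prod P) := by
    have h1 : Integrable (fun q : E n × (E n × E n) => Real.exp (-a * ‖q.1‖ ^ 2) * (1 : ℝ))
      (volume.prod P) := (integrable_gauss ha).mul_prod (integrable_const 1)
    simp only [mul_one] at h1
    refine h1.mul_bdd (c := 1) (Continuous.aestronglyMeasurable (by fun_prop))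
        (Eventually.of_forall fun x => ?_)
    rw [Real.norm_eq_abs]; exact Real.abs_cos_le_one _
  have e1 : ∀ h : E n, Real.exp (-a * ‖h‖ ^ 2) * ‖chi Ω h‖ ^ 2
      = ∫ p, Real.exp (-a * ‖h‖ ^ 2) * Real.cos ⟪h, p.1 - p.2⟫ ∂P := by
    intro h
    rw [chi_sq hfin, ← integral_const_mul]
  simp only [e1]
  refine ⟨hJ.integral_prod_left, ?_⟩
  rw [integral_integral_swap hJ]
  refine integral_congr_ae (Eventually.of_forall fun p => ?_)
  simp only
  rw [integral_gauss_cos ha, GG]

/-- covariogram -/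
noncomputable def cov (Ω : Set (E n)) (w : E n) : ℝ :=
  ∫ x, Ω.indicator (fun _ => (1 : ℝ)) x * Ω.indicator (fun _ => (1 : ℝ)) (x + w)

theorem ind_le (x : E n) : Ω.indicator (fun _ => (1 : ℝ)) x ≤ 1 :=
  indicator_le_self' (fun _ _ => zero_le_one) x

theorem ind_nn (x : E n) : 0 ≤ Ω.indicator (fun _ => (1 : ℝ)) x :=
  indicator_nonneg (fun _ _ => zero_le_one) x

theorem ind_int (hΩ : MeasurableSet Ω) (hfin : volume Ω ≠ ⊤) :
    Integrable (Ω.indicator (fun _ => (1 : ℝ))) :=
  (integrable_indicator_iff hΩ).2 (integrableOn_const hfin enorm_ne_top)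

theorem ind_int_shift (hΩ : MeasurableSet Ω) (hfin : volume Ω ≠ ⊤) (w : E n) :
    Integrable (fun x => Ω.indicator (fun _ => (1 : ℝ)) (x + w)) :=
  (ind_int hΩ hfin).comp_add_right w

theorem cov_int (hΩ : MeasurableSet Ω) (hfin : volume Ω ≠ ⊤) (w : E n) :
    Integrable (fun x => Ω.indicator (fun _ => (1 : ℝ)) x
      * Ω.indicator (fun _ => (1 : ℝ)) (x + w)) := by
  refine (ind_int hΩ hfin).mul_bdd (c := 1) (ind_int_shift hΩ hfin w).1
    (Eventually.of_forall fun x => ?_)
  rw [Real.norm_eq_abs, abs_of_nonneg (ind_nn _)]; exact ind_le _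

/-- `∬_{Ω×Ω} F(x-y) = ∫ F(w) cov(w)` -/
theorem cov_formula (hΩ : MeasurableSet Ω) (hfin : volume Ω ≠ ⊤) {F : E n → ℝ}
    (hF : Continuous F) (hFi : Integrable F) (C : ℝ) (hC : ∀ x, |F x| ≤ C) :
    Integrable (fun w => F w * cov Ω w) ∧
    ∫ p, F (p.1 - p.2) ∂((volume.restrict Ω).prod (volume.restrict Ω))
      = ∫ w, F w * cov Ω w := by
  have hfm : IsFiniteMeasure (volume.restrict Ω) := ⟨by
    rw [Measure.restrict_apply_univ]; exact lt_top_iff_ne_top.2 hfin⟩
  set I : E n → ℝ := Ω.indicator (fun _ => (1 : ℝ)) with hI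
  have hIm : Measurable I := measurable_const.indicator hΩ
  have hJ : Integrable (fun p : E n × E n => F p.1 * I p.2 * I (p.2 + p.1))
      (volume.prod volume) := by
    refine (hFi.mul_prod (ind_int hΩ hfin)).mul_bdd (c := 1) ?_
      (Eventually.of_forall fun x => ?_)
    · exact (hIm.comp (measurable_snd.add measurable_fst)).aestronglyMeasurable
    · rw [Real.norm_eq_abs, abs_of_nonneg (ind_nn _)]; exact ind_le _
  have e1 : ∀ w, F w * cov Ω w = ∫ x, F w * I x * I (x + w) := by
    intro w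
    rw [cov, ← integral_const_mul]
    refine integral_congr_ae (Eventually.of_forall fun p => ?_)
    simp only; ring
  simp only [e1]
  refine ⟨hJ.integral_prod_left, ?_⟩
  rw [integral_integral_swap hJ]
  have hK : Integrable (fun p : E n × E n => F (p.1 - p.2))
      ((volume.restrict Ω).prod (volume.restrict Ω)) := by
    refine Integrable.of_bound (C := C) (Continuous.aestronglyMeasurable (by fun_prop))
      (Eventually.of_forall fun p => ?_)
    rw [Real.norm_eq_abs]; exact hC _
  rw [integral_prod_symm _ hK, ← integral_indicator hΩ]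
  refine integral_congr_ae (Eventually.of_forall fun y => ?_)
  simp only
  have e2 : ∫ x, F x * I y * I (y + x) = I y * ∫ x in Ω, F (x - y) := by
    rw [← integral_indicator hΩ, ← integral_const_mul,
      ← integral_add_right_eq_self (fun x => I y * Ω.indicator (fun x => F (x - y)) x) y]
    refine integral_congr_ae (Eventually.of_forall fun x => ?_)
    simp only
    rw [add_comm y x, hI]
    by_cases h : x + y ∈ Ω
    · rw [indicator_of_mem h, indicator_of_mem h, add_sub_cancel_right]; ring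
    · rw [indicator_of_notMem h, indicator_of_notMem h]; ring
  rw [e2, hI]
  by_cases h : y ∈ Ω
  · rw [indicator_of_mem h, indicator_of_mem h, one_mul]
  · rw [indicator_of_notMem h, indicator_of_notMem h, zero_mul]

/-- `2 cov(w) - cov(2w) ≤ |Ω|` -/
theorem cov_triangle (hΩ : MeasurableSet Ω) (hfin : volume Ω ≠ ⊤) (w : E n) :
    2 * cov Ω w - cov Ω ((2 : ℝ) • w) ≤ volume.real Ω := by
  set I : E n → ℝ := Ω.indicator (fun _ => (1 : ℝ)) with hI
  have h0 : ∫ x, I x = volume.real Ω := by
    rw [hI, integral_indicator hΩ]; simp [Measure.real]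
  have h1 : cov Ω w = ∫ x, I x * I (x + w) := rfl
  have h2 : cov Ω w = ∫ x, I x * I (x - w) := by
    rw [h1, ← integral_sub_right_eq_self (fun x => I x * I (x + w)) w]
    refine integral_congr_ae (Eventually.of_forall fun x => ?_)
    simp only
    rw [sub_add_cancel, mul_comm]
  have h3 : cov Ω ((2 : ℝ) • w) = ∫ x, I (x - w) * I (x + w) := by
    rw [cov, ← integral_sub_right_eq_self (fun x => I x * I (x + (2 : ℝ) • w)) w]
    refine integral_congr_ae (Eventually.of_forall fun x => ?_)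
    simp only
    congr 2
    rw [two_smul]; abel
  have i0 : Integrable I := ind_int hΩ hfin
  have i1 : Integrable (fun x => I x * I (x + w)) := cov_int hΩ hfin w
  have i2 : Integrable (fun x => I x * I (x - w)) := by
    have := cov_int hΩ hfin (-w)
    simpa only [← sub_eq_add_neg] using this
  have i3 : Integrable (fun x => I (x - w) * I (x + w)) := by
    have := (cov_int hΩ hfin ((2 : ℝ) • w)).comp_sub_right w
    refine this.congr (Eventually.of_forall fun x => ?_)
    simp only [hI]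
    congr 2
    rw [two_smul]; abel
  have hnn : 0 ≤ ∫ x, (I x - I x * I (x + w) - I x * I (x - w) + I (x - w) * I (x + w)) := by
    refine integral_nonneg fun x => ?_
    simp only [Pi.zero_apply]
    have a0 : I x = 0 ∨ I x = 1 := by
      by_cases h : x ∈ Ω
      · right; rw [hI, indicator_of_mem h]
      · left; rw [hI, indicator_of_notMem h]
    have b0 := ind_nn (Ω := Ω) (x + w)
    have b1 := ind_le (Ω := Ω) (x + w)
    have c0 := ind_nn (Ω := Ω) (x - w)
    have c1 := ind_le (Ω := Ω) (x - w)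
    rw [← hI] at b0 b1 c0 c1
    rcases a0 with h | h
    · rw [h]; nlinarith
    · rw [h]; nlinarith
  have i01 : Integrable (fun x => I x - I x * I (x + w)) := i0.sub i1
  have i012 : Integrable (fun x => I x - I x * I (x + w) - I x * I (x - w)) := i01.sub i2
  rw [integral_add i012 i3, integral_sub i01 i2, integral_sub i0 i1,
    h0, ← h1, ← h2, ← h3] at hnn
  linarith

theorem cov_nonneg (w : E n) : 0 ≤ cov Ω w :=
  integral_nonneg fun _ => mul_nonneg (ind_nn _) (ind_nn _)

theorem GG_bdd {a : ℝ} (ha : 0 < a) (z : E n) : |GG a z| ≤ (Real.pi / a) ^ ((n : ℝ) / 2) := by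
  rw [abs_of_pos (GG_pos ha z), GG]
  refine mul_le_of_le_one_right (by positivity) ?_
  rw [Real.exp_le_one_iff]
  have : 0 ≤ ‖z‖ ^ 2 / (4 * a) := by positivity
  have e : -‖z‖ ^ 2 / (4 * a) = -(‖z‖ ^ 2 / (4 * a)) := by ring
  rw [e]; linarith

/-- The triangle lemma. -/
theorem triangle (hΩ : MeasurableSet Ω) (hfin : volume Ω ≠ ⊤) {a : ℝ} (ha : 0 < a) :
    Integrable (fun h : E n => (2 * Real.exp (-a * ‖h‖ ^ 2) - Real.exp (-(4 * a) * ‖h‖ ^ 2))
      * ‖chi Ω h‖ ^ 2) ∧
    ∫ h : E n, (2 * Real.exp (-a * ‖h‖ ^ 2) - Real.exp (-(4 * a) * ‖h‖ ^ 2)) * ‖chi Ω h‖ ^ 2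
      ≤ (2 * Real.pi) ^ n * volume.real Ω := by
  obtain ⟨i1, e1⟩ := gauss_chi (Ω := Ω) hfin ha
  obtain ⟨i2, e2⟩ := gauss_chi (Ω := Ω) hfin (a := 4 * a) (by positivity)
  have e0 : ∀ h : E n, (2 * Real.exp (-a * ‖h‖ ^ 2) - Real.exp (-(4 * a) * ‖h‖ ^ 2))
      * ‖chi Ω h‖ ^ 2 = 2 * (Real.exp (-a * ‖h‖ ^ 2) * ‖chi Ω h‖ ^ 2)
        - Real.exp (-(4 * a) * ‖h‖ ^ 2) * ‖chi Ω h‖ ^ 2 := by intro h; ring
  simp only [e0]
  refine ⟨(i1.const_mul 2).sub i2, ?_⟩
  rw [integral_sub (i1.const_mul 2) i2, integral_const_mul, e1, e2]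
  obtain ⟨c1, d1⟩ := cov_formula hΩ hfin GG_cont (integrable_GG ha) _ (GG_bdd ha)
  obtain ⟨c2, d2⟩ := cov_formula hΩ hfin GG_cont (integrable_GG (a := 4 * a) (by positivity)) _
    (GG_bdd (by positivity))
  rw [d1, d2]
  have e3 : ∫ w, GG (4 * a) w * cov Ω w = ∫ w, GG a w * cov Ω ((2 : ℝ) • w) := by
    have h := Measure.integral_comp_smul (μ := (volume : Measure (E n)))
      (fun z => GG a ((1 / 2 : ℝ) • z) * cov Ω z) (2 : ℝ)
    simp only [smul_smul] at h
    norm_num at h
    rw [h, ← integral_const_mul]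
    refine integral_congr_ae (Eventually.of_forall fun z => ?_)
    simp only
    rw [GG_four ha]
    rw [show ((1 / 2 : ℝ)) = (2 : ℝ)⁻¹ by norm_num]
    ring
  have c3 : Integrable (fun w => GG a w * cov Ω ((2 : ℝ) • w)) := by
    have h := (integrable_comp_smul_iff (volume : Measure (E n))
      (fun z => GG a ((1 / 2 : ℝ) • z) * cov Ω z) (R := (2 : ℝ)) (by norm_num)).2 (by
        have := c2.const_mul ((2 : ℝ) ^ n)
        refine this.congr (Eventually.of_forall fun z => ?_)
        simp only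
        rw [GG_four ha]
        field_simp)
    refine h.congr (Eventually.of_forall fun z => ?_)
    simp only [smul_smul]
    norm_num
  rw [e3]
  have h4 : (2 * ∫ w, GG a w * cov Ω w) - ∫ w, GG a w * cov Ω ((2 : ℝ) • w)
      = ∫ w, (2 * (GG a w * cov Ω w) - GG a w * cov Ω ((2 : ℝ) • w)) := by
    rw [integral_sub (c1.const_mul 2) c3, integral_const_mul]
  rw [h4]
  have h5 : ∫ w : E n, (2 * (GG a w * cov Ω w) - GG a w * cov Ω ((2 : ℝ) • w))
      ≤ ∫ w : E n, GG a w * volume.real Ω := by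
    refine integral_mono ((c1.const_mul 2).sub c3) ((integrable_GG ha).mul_const _) fun w => ?_
    simp only
    have := mul_le_mul_of_nonneg_left (cov_triangle hΩ hfin w) (GG_pos ha w).le
    linarith
  refine h5.trans (le_of_eq ?_)
  rw [integral_mul_const, integral_GG ha]

end Pool.Agent.PN
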